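import Mathlib

/-!
# The first-order language of groups
-/

namespace Pool.Agent.V7H56.RG

open FirstOrder

/-- The function symbols: one symbol for the multiplication. -/
inductive GFun : ℕ → Type
  | mul : GFun 2

/-- The first-order language with one binary function symbol and no relation symbols. -/
def GLang : Language := ⟨GFun, fun _ => Empty⟩

/-- A group as a structure: the symbol is interpreted by the multiplication. -/
instance (G : Type) [Group G] : GLang.Structure G where
  funMap := fun f v => match f with
    | GFun.mul => v 0 * v 1
  RelMap := fun r => r.elim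

/-- Two groups are elementarily equivalent: they satisfy the same first-order sentences in the
language of groups. -/
def ElemEquiv (G H : Type) [Group G] [Group H] : Prop := GLang.ElementarilyEquivalent G H

/-- multiplication of terms -/
def tmul {n : ℕ} (a b : GLang.Term (Empty ⊕ Fin n)) : GLang.Term (Empty ⊕ Fin n) :=
  Language.Term.func GFun.mul ![a, b]

/-- for every `x` there is `y` with `(x * y) * x = y` -/
def ambS : GLang.Sentence :=
  ((Language.Term.bdEqual (tmul (tmul (Language.Term.var (Sum.inr 0)) (Language.Term.var (Sum.inr 1)))
    (Language.Term.var (Sum.inr 0))) (Language.Term.var (Sum.inr 1)) :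
      GLang.BoundedFormula Empty 2).ex).all

theorem realize_ambS (G : Type) [Group G] :
    G ⊨ ambS ↔ ∀ x : G, ∃ y : G, (x * y) * x = y := by
  unfold ambS Language.Sentence.Realize Language.Formula.Realize
  rw [Language.BoundedFormula.realize_all]
  refine forall_congr' fun x => ?_
  rw [Language.BoundedFormula.realize_ex]
  refine exists_congr fun y => ?_
  rw [Language.BoundedFormula.realize_bdEqual]
  rfl

theorem amb_iff (G : Type) [Group G] :
    (∀ x : G, ∃ y : G, (x * y) * x = y) ↔ ∀ x : G, ∃ y : G, y * x * y⁻¹ = x⁻¹ := by
  refine forall_congr' fun x => exists_congr fun y => ?_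
  constructor
  · intro h
    rw [mul_inv_eq_iff_eq_mul, eq_inv_mul_iff_mul_eq, ← mul_assoc]
    exact h
  · intro h
    rw [mul_inv_eq_iff_eq_mul, eq_inv_mul_iff_mul_eq, ← mul_assoc] at h
    exact h

theorem ElemEquiv.amb {G H : Type} [Group G] [Group H] (h : ElemEquiv G H)
    (hH : ∀ x : H, ∃ y : H, y * x * y⁻¹ = x⁻¹) : ∀ x : G, ∃ y : G, y * x * y⁻¹ = x⁻¹ := by
  rw [← amb_iff, ← realize_ambS] at hH ⊢
  exact (h.realize_sentence ambS).2 hH

theorem ElemEquiv.of_iso {G H : Type} [Group G] [Group H] (e : G ≃* H) : ElemEquiv G H := by
  have e' : G ≃[GLang] H :=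
    { toEquiv := e.toEquiv
      map_fun' := by
        intro n f v
        cases f
        exact e.map_mul _ _
      map_rel' := by
        intro n r
        exact r.elim }
  exact Language.StrongHomClass.elementarilyEquivalent e'

end Pool.Agent.V7H56.RG
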