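import Pool.Agent.V7H56.RG.Emb
import Pool.Agent.V7H56.RG.Fo
import Pool.Agent.V7H56.PP.Conj
import Pool.Agent.V7H56.PP.Real

/-!
# `P = PSPACE` and the groups of polynomial-time and of polynomial-space permutations
-/

namespace Pool.Agent.V7H56.RG

open Pool.Agent.NPC Pool.Agent.NPC.PIso Pool.Agent.V7H56.PP Equiv

/-- If `P = PSPACE` then all functions of the class are computable in polynomial time. -/
theorem SP.toPoly (H : ∀ L, InPSPACE L → InP L) {α β : Type} [TEnc α] [TDec α] [TEnc β] {f : α → β}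
    (hf : SP f) : Poly f := by
  obtain ⟨σ, _, G, stop, init, out, h1, h2, h3, h4, q, hq⟩ := hf
  have hstay : Poly (stay G stop) := Poly.cond h2 Poly.id h1
  have hU : UPoly (fun a : α => q.eval (sz a)) :=
    UPoly.eval (n := fun a : α => (bits a).length) (UPoly.length PP.poly_bits) q
  have h5 := poly_iterate H (n := fun a : α => 2 ^ (q.eval (sz a) + 1)) (s := init)
    (G := stay G stop) (poly_two_pow (UPoly.add hU (UPoly.const 1))) h3 hstay q (by
      intro a i _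
      obtain ⟨t, r1, _⟩ := hq a
      exact r1.stay_sz i)
  refine (h4.comp h5).congr fun a => ?_
  obtain ⟨t, r1, e1⟩ := hq a
  rw [r1.stay_eq le_rfl, e1]

theorem SPerm_eq (H : ∀ L, InPSPACE L → InP L) : SPerm = PPerm := by
  apply le_antisymm _ PPerm_le_SPerm
  intro g hg
  obtain ⟨h1, h2, h3⟩ := mem_SPerm'.1 hg
  exact mem_PPerm.2 ⟨h1, h2.toPoly H, h3.toPoly H⟩

theorem conj_coe {G : Subgroup (Perm (List Bool))} :
    (∀ x : G, ∃ y : G, y * x * y⁻¹ = x⁻¹) ↔ ∀ g ∈ G, ∃ h ∈ G, h * g * h⁻¹ = g⁻¹ := by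
  constructor
  · intro h g hg
    obtain ⟨y, hy⟩ := h ⟨g, hg⟩
    exact ⟨y, y.2, congrArg Subtype.val hy⟩
  · intro h x
    obtain ⟨y, hy, e⟩ := h x x.2
    exact ⟨⟨y, hy⟩, Subtype.ext e⟩

end Pool.Agent.V7H56.RG
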