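import Pool.Agent.V7H56.PP.Defs

/-!
# Transpositions in groups of length-preserving permutations
-/

namespace Pool.Agent.V7H56.RG

open Pool.Agent.V7H56.PP Equiv

/-- A group of length-preserving permutations which contains all transpositions of two strings of
the same length. -/
structure Big (G : Subgroup (Perm (List Bool))) : Prop where
  le : G ≤ LPerm
  sw : ∀ x y : List Bool, x.length = y.length → Equiv.swap x y ∈ G

theorem exists_new {n : ℕ} (l : List (List Bool)) (hl : l.length < 2 ^ n) :
    ∃ u : List Bool, u.length = n ∧ u ∉ l := by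
  by_contra hcon
  push Not at hcon
  have h1 : (Finset.univ.image (fun v : List.Vector Bool n => v.toList)) ⊆ l.toFinset := by
    intro u hu
    rw [Finset.mem_image] at hu
    obtain ⟨v, _, rfl⟩ := hu
    rw [List.mem_toFinset]
    exact hcon _ v.toList_length
  have h2 := Finset.card_le_card h1
  rw [Finset.card_image_of_injective _ (List.Vector.toList_injective), Finset.card_univ,
    card_vector, Fintype.card_bool] at h2
  have h3 := List.toFinset_card_le l
  omega

theorem exists_new8 {n : ℕ} (hn : 3 ≤ n) (l : List (List Bool)) (hl : l.length < 8) :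
    ∃ u : List Bool, u.length = n ∧ u ∉ l := by
  refine exists_new l (hl.trans_le ?_)
  calc 8 = 2 ^ 3 := by norm_num
    _ ≤ 2 ^ n := Nat.pow_le_pow_right (by norm_num) hn

section

variable {α : Type} [DecidableEq α]

theorem three_cycle {a b c : α} (hab : a ≠ b) (hac : a ≠ c) (hbc : b ≠ c) :
    (swap a b * swap a c) ^ 3 = 1 := by
  have h1 : swap a b * swap a c * swap a b = swap b c := by
    have := Equiv.swap_apply_apply (swap a b) a c
    rw [swap_apply_left, swap_apply_of_ne_of_ne hac.symm hbc.symm] at this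
    rw [this, swap_inv]
  have h2 : swap a c * swap a b * swap a c = swap b c := by
    have := Equiv.swap_apply_apply (swap a c) a b
    rw [swap_apply_left, swap_apply_of_ne_of_ne hab.symm hbc] at this
    rw [swap_comm b c, this, swap_inv]
  calc (swap a b * swap a c) ^ 3 = (swap a b * swap a c * swap a b) *
      (swap a c * swap a b * swap a c) := by
        simp only [pow_succ, pow_zero, one_mul, mul_assoc]
    _ = 1 := by rw [h1, h2, swap_mul_self]

theorem swap_swap (a b c d : α) : (swap a b * swap c d) ^ 2 = 1 ∨ (swap a b * swap c d) ^ 3 = 1 := by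
  by_cases hab : a = b
  · left; subst hab; rw [swap_self]; change (1 * swap c d) ^ 2 = 1; rw [one_mul, sq, swap_mul_self]
  by_cases hcd : c = d
  · left; subst hcd; rw [swap_self]; change (swap a b * 1) ^ 2 = 1; rw [mul_one, sq, swap_mul_self]
  by_cases hac : a = c
  · subst hac
    by_cases hbd : b = d
    · subst hbd; left; rw [swap_mul_self, one_pow]
    · right; exact three_cycle hab hcd hbd
  by_cases had : a = d
  · subst had
    rw [swap_comm c a]
    by_cases hbc : b = c
    · subst hbc; left; rw [swap_mul_self, one_pow]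
    · right; exact three_cycle hab hac hbc
  by_cases hbc : b = c
  · subst hbc
    rw [swap_comm a b]
    right; exact three_cycle (Ne.symm hab) hcd had
  by_cases hbd : b = d
  · subst hbd
    rw [swap_comm a b, swap_comm c b]
    right; exact three_cycle (Ne.symm hab) hbc hac
  left
  have h : swap a b * swap c d = swap c d * swap a b := by
    have := Equiv.swap_apply_apply (swap c d) a b
    rw [swap_apply_of_ne_of_ne hac had, swap_apply_of_ne_of_ne hbc hbd, swap_inv] at this
    conv_lhs => rw [this]
    rw [mul_assoc, swap_mul_self, mul_one]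
  rw [sq, mul_assoc]
  conv_lhs => rw [← mul_assoc (swap c d), ← h]
  rw [mul_assoc, swap_mul_self, mul_one, swap_mul_self]

end

variable {G : Subgroup (Perm (List Bool))}

theorem Big.formPerm (hG : Big G) {n : ℕ} : ∀ l : List (List Bool), (∀ x ∈ l, x.length = n) →
    l.formPerm ∈ G := by
  intro l
  induction l with
  | nil => intro _; rw [List.formPerm_nil]; exact G.one_mem
  | cons a l ih =>
    intro h
    cases l with
    | nil => rw [List.formPerm_singleton]; exact G.one_mem
    | cons b l =>
      rw [List.formPerm_cons_cons]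
      refine G.mul_mem (hG.sw a b ?_) (ih fun x hx => h x (List.mem_cons_of_mem _ hx))
      rw [h a (by simp), h b (by simp)]

/-- The property which characterises transpositions. -/
def TP (G : Subgroup (Perm (List Bool))) (t : Perm (List Bool)) : Prop :=
  t * t = 1 ∧ ∀ h ∈ G, (t * (h * t * h⁻¹)) ^ 2 = 1 ∨ (t * (h * t * h⁻¹)) ^ 3 = 1

theorem tp_swap (x y : List Bool) : TP G (swap x y) := by
  refine ⟨swap_mul_self x y, fun h _ => ?_⟩
  rw [← Equiv.swap_apply_apply h x y]
  exact swap_swap _ _ _ _

theorem Big.len (hG : Big G) {t : Perm (List Bool)} (ht : t ∈ G) (w : List Bool) :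
    (t w).length = w.length := hG.le ht w

/-- on one level -/
theorem Big.same (hG : Big G) {t : Perm (List Bool)} (ht : t ∈ G) (hT : TP G t) {w v : List Bool}
    (hw : 3 ≤ w.length) (hv : v.length = w.length) (h1 : t w ≠ w) (h2 : v ≠ w) (h3 : v ≠ t w) :
    t v = v := by
  by_contra h4
  obtain ⟨hsq, hc⟩ := hT
  have tt : ∀ x, t (t x) = x := fun x => congrArg (fun p : Perm (List Bool) => p x) hsq
  obtain ⟨w', hw'⟩ : ∃ w', w' = t w := ⟨_, rfl⟩
  obtain ⟨v', hv'⟩ : ∃ v', v' = t v := ⟨_, rfl⟩
  have e1 : t w' = w := by rw [hw', tt]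
  have e2 : t v' = v := by rw [hv', tt]
  have lw' : w'.length = w.length := by rw [hw', hG.len ht]
  have lv' : v'.length = w.length := by rw [hv', hG.len ht, hv]
  rw [← hw'] at h1 h3
  rw [← hv'] at h4
  have h5 : v' ≠ w := fun h => h3 (by rw [← e2, h, hw'])
  have h6 : v' ≠ w' := fun h => h2 (by rw [← e2, h, e1])
  by_cases hfix : ∃ u : List Bool, u.length = w.length ∧ t u = u
  · obtain ⟨u, lu, hu⟩ := hfix
    have u1 : u ≠ w := fun h => h1 (by rw [hw', ← h, hu])
    have u2 : u ≠ w' := fun h => h1 (by rw [← e1, ← h, hu])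
    have u3 : u ≠ v := fun h => h4 (by rw [hv', ← h, hu])
    have u4 : u ≠ v' := fun h => h4 (by rw [← e2, ← h, hu])
    have hl : ([w, w', v, v', u] : List (List Bool)).Nodup := by
      simp only [List.nodup_cons, List.mem_cons, List.not_mem_nil, or_false, not_or,
        not_false_eq_true, List.nodup_nil, and_true]
      exact ⟨⟨h1.symm, h2.symm, h5.symm, u1.symm⟩, ⟨h3.symm, h6.symm, u2.symm⟩,
        ⟨Ne.symm h4, u3.symm⟩, u4.symm⟩
    have hm : ([w, w', v, v', u] : List (List Bool)).formPerm ∈ G := hG.formPerm (n := w.length) _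
      (by simp [lw', hv, lv', lu])
    have f0 := List.formPerm_apply_getElem _ hl 0 (by simp)
    have f1 := List.formPerm_apply_getElem _ hl 1 (by simp)
    have f2 := List.formPerm_apply_getElem _ hl 2 (by simp)
    have f3 := List.formPerm_apply_getElem _ hl 3 (by simp)
    have f4 := List.formPerm_apply_getElem _ hl 4 (by simp)
    have hc' := hc _ hm
    generalize ([w, w', v, v', u] : List (List Bool)).formPerm = h at *
    simp only [List.getElem_cons_zero, List.getElem_cons_succ, List.length_cons, List.length_nil,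
      Nat.reduceAdd, Nat.reduceMod] at f0 f1 f2 f3 f4
    have g0 : h⁻¹ w' = w := by rw [← f0]; exact h.symm_apply_apply w
    have g2 : h⁻¹ v' = v := by rw [← f2]; exact h.symm_apply_apply v
    have s1 : (t * (h * t * h⁻¹)) w = w' := by
      have g4 : h⁻¹ w = u := by rw [← f4]; exact h.symm_apply_apply u
      simp only [Perm.mul_apply, g4, hu, f4, ← hw']
    have s2 : (t * (h * t * h⁻¹)) w' = v' := by
      simp only [Perm.mul_apply, g0, ← hw', f1, ← hv']
    have s3 : (t * (h * t * h⁻¹)) v' = u := by
      simp only [Perm.mul_apply, g2, ← hv', f3, hu]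
    generalize t * (h * t * h⁻¹) = s at *
    rcases hc' with hc' | hc'
    · have := congrArg (fun p : Perm (List Bool) => p w) hc'
      simp only [pow_succ, pow_zero, one_mul, Perm.mul_apply, s1, s2, Perm.one_apply] at this
      exact h5 this
    · have := congrArg (fun p : Perm (List Bool) => p w) hc'
      simp only [pow_succ, pow_zero, one_mul, Perm.mul_apply, s1, s2, s3, Perm.one_apply] at this
      exact u1 this
  · push Not at hfix
    obtain ⟨u, lu, hu⟩ := exists_new8 hw [w, w', v, v'] (by simp)
    obtain ⟨u', hu'⟩ : ∃ u', u' = t u := ⟨_, rfl⟩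
    have e3 : t u' = u := by rw [hu', tt]
    have lu' : u'.length = w.length := by rw [hu', hG.len ht, lu]
    obtain ⟨r, lr, hr⟩ := exists_new8 hw [w, w', v, v', u, u'] (by simp)
    obtain ⟨r', hr'⟩ : ∃ r', r' = t r := ⟨_, rfl⟩
    have e4 : t r' = r := by rw [hr', tt]
    have lr' : r'.length = w.length := by rw [hr', hG.len ht, lr]
    simp only [List.mem_cons, List.not_mem_nil, or_false, not_or] at hu hr
    obtain ⟨u1, u2, u3, u4⟩ := hu
    obtain ⟨r1, r2, r3, r4, r5, r6⟩ := hr
    have v1 : u' ≠ w := fun h => u2 (by rw [← e3, h, hw'])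
    have v2 : u' ≠ w' := fun h => u1 (by rw [← e3, h, e1])
    have v3 : u' ≠ v := fun h => u4 (by rw [← e3, h, hv'])
    have v4 : u' ≠ v' := fun h => u3 (by rw [← e3, h, e2])
    have v5 : u' ≠ u := fun h => hfix u lu (by rw [← hu', h])
    have q1 : r' ≠ w := fun h => r2 (by rw [← e4, h, hw'])
    have q2 : r' ≠ w' := fun h => r1 (by rw [← e4, h, e1])
    have q3 : r' ≠ v := fun h => r4 (by rw [← e4, h, hv'])
    have q4 : r' ≠ v' := fun h => r3 (by rw [← e4, h, e2])
    have q5 : r' ≠ u := fun h => r6 (by rw [← e4, h, hu'])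
    have q6 : r' ≠ u' := fun h => r5 (by rw [← e4, h, e3])
    have q7 : r' ≠ r := fun h => hfix r lr (by rw [← hr', h])
    have hl : ([w, w', v, v', u, u', r, r'] : List (List Bool)).Nodup := by
      simp only [List.nodup_cons, List.mem_cons, List.not_mem_nil, or_false, not_or,
        not_false_eq_true, List.nodup_nil, and_true]
      exact ⟨⟨h1.symm, h2.symm, h5.symm, Ne.symm u1, v1.symm, Ne.symm r1, q1.symm⟩,
        ⟨h3.symm, h6.symm, Ne.symm u2, v2.symm, Ne.symm r2, q2.symm⟩,
        ⟨Ne.symm h4, Ne.symm u3, v3.symm, Ne.symm r3, q3.symm⟩,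
        ⟨Ne.symm u4, v4.symm, Ne.symm r4, q4.symm⟩, ⟨v5.symm, Ne.symm r5, q5.symm⟩,
        ⟨Ne.symm r6, q6.symm⟩, q7.symm⟩
    have hm : ([w, w', v, v', u, u', r, r'] : List (List Bool)).formPerm ∈ G :=
      hG.formPerm (n := w.length) _ (by simp [lw', hv, lv', lu, lu', lr, lr'])
    have f0 := List.formPerm_apply_getElem _ hl 0 (by simp)
    have f1 := List.formPerm_apply_getElem _ hl 1 (by simp)
    have f2 := List.formPerm_apply_getElem _ hl 2 (by simp)
    have f3 := List.formPerm_apply_getElem _ hl 3 (by simp)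
    have f4 := List.formPerm_apply_getElem _ hl 4 (by simp)
    have f5 := List.formPerm_apply_getElem _ hl 5 (by simp)
    have f6 := List.formPerm_apply_getElem _ hl 6 (by simp)
    have f7 := List.formPerm_apply_getElem _ hl 7 (by simp)
    have hc' := hc _ hm
    generalize ([w, w', v, v', u, u', r, r'] : List (List Bool)).formPerm = h at *
    simp only [List.getElem_cons_zero, List.getElem_cons_succ, List.length_cons, List.length_nil,
      Nat.reduceAdd, Nat.reduceMod] at f0 f1 f2 f3 f4 f5 f6 f7
    have g7 : h⁻¹ w = r' := by rw [← f7]; exact h.symm_apply_apply r'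
    have g5 : h⁻¹ r = u' := by rw [← f5]; exact h.symm_apply_apply u'
    have g3 : h⁻¹ u = v' := by rw [← f3]; exact h.symm_apply_apply v'
    have s1 : (t * (h * t * h⁻¹)) w = r := by
      simp only [Perm.mul_apply, g7, e4, f6]
    have s2 : (t * (h * t * h⁻¹)) r = u := by
      simp only [Perm.mul_apply, g5, e3, f4]
    have s3 : (t * (h * t * h⁻¹)) u = v := by
      simp only [Perm.mul_apply, g3, e2, f2]
    generalize t * (h * t * h⁻¹) = s at *
    rcases hc' with hc' | hc'
    · have := congrArg (fun p : Perm (List Bool) => p w) hc'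
      simp only [pow_succ, pow_zero, one_mul, Perm.mul_apply, s1, s2, Perm.one_apply] at this
      exact u1 this
    · have := congrArg (fun p : Perm (List Bool) => p w) hc'
      simp only [pow_succ, pow_zero, one_mul, Perm.mul_apply, s1, s2, s3, Perm.one_apply] at this
      exact h2 this

/-- **Characterisation of transpositions.** -/
theorem Big.char (hG : Big G) {t : Perm (List Bool)} (ht : t ∈ G) (hT : TP G t) {w v : List Bool}
    (hw : 3 ≤ w.length) (h1 : t w ≠ w) (hv : 3 ≤ v.length) : t v = swap w (t w) v := by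
  have hsq := hT.1
  have tt : ∀ x, t (t x) = x := fun x => congrArg (fun p : Perm (List Bool) => p x) hsq
  by_cases h2 : v = w
  · rw [h2, swap_apply_left]
  by_cases h3 : v = t w
  · rw [h3, swap_apply_right, tt]
  rw [swap_apply_of_ne_of_ne h2 h3]
  by_cases hlen : v.length = w.length
  · exact hG.same ht hT hw hlen h1 h2 h3
  by_contra h4
  obtain ⟨w', hw'⟩ : ∃ w', w' = t w := ⟨_, rfl⟩
  obtain ⟨v', hv'⟩ : ∃ v', v' = t v := ⟨_, rfl⟩
  have e1 : t w' = w := by rw [hw', tt]
  have e2 : t v' = v := by rw [hv', tt]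
  have lw' : w'.length = w.length := by rw [hw', hG.len ht]
  have lv' : v'.length = v.length := by rw [hv', hG.len ht]
  rw [← hw'] at h1 h3
  rw [← hv'] at h4
  obtain ⟨u, lu, hu⟩ := exists_new8 hw [w, w'] (by simp)
  obtain ⟨a, la, ha⟩ := exists_new8 hv [v, v'] (by simp)
  obtain ⟨b, lb, hb⟩ := exists_new8 hv [v, v', a] (by simp)
  simp only [List.mem_cons, List.not_mem_nil, or_false, not_or] at hu ha hb
  obtain ⟨u1, u2⟩ := hu
  obtain ⟨a1, a2⟩ := ha
  obtain ⟨b1, b2, b3⟩ := hb
  have tu : t u = u := hG.same ht hT hw lu (by rw [← hw']; exact h1) u1 (by rw [← hw']; exact u2)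
  have ta : t a = a := hG.same ht hT hv la (by rw [← hv']; exact h4) a1 (by rw [← hv']; exact a2)
  have tb : t b = b := hG.same ht hT hv lb (by rw [← hv']; exact h4) b1 (by rw [← hv']; exact b2)
  have ne : ∀ x y : List Bool, x.length = w.length → y.length = v.length → x ≠ y := by
    intro x y hx hy hxy
    rw [hxy, hy] at hx
    exact hlen hx
  have hm : swap w' u * (swap v a * swap v' b) ∈ G := G.mul_mem (hG.sw _ _ (by rw [lw', lu]))
    (G.mul_mem (hG.sw _ _ la.symm) (hG.sw _ _ (by rw [lv', lb])))
  have hc' := hT.2 _ hm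
  have k1 : ∀ x : List Bool, x.length = w.length →
      (swap w' u * (swap v a * swap v' b)) x = swap w' u x := by
    intro x hx
    simp only [Perm.mul_apply]
    rw [swap_apply_of_ne_of_ne (ne x v' hx lv') (ne x b hx lb),
      swap_apply_of_ne_of_ne (ne x v hx rfl) (ne x a hx la)]
  have k2 : ∀ x : List Bool, x.length = w.length →
      (swap w' u * (swap v a * swap v' b))⁻¹ x = swap w' u x := by
    intro x hx
    rw [Perm.inv_eq_iff_eq, k1, swap_apply_self]
    rw [hG.len (hG.sw w' u (by rw [lw', lu])), hx]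
  have k3 : ∀ x : List Bool, x.length = v.length →
      (swap w' u * (swap v a * swap v' b)) x = (swap v a * swap v' b) x := by
    intro x hx
    have hlx : ((swap v a * swap v' b) x).length = v.length := by
      rw [hG.len (G.mul_mem (hG.sw _ _ la.symm) (hG.sw _ _ (by rw [lv', lb]))), hx]
    rw [Perm.mul_apply, swap_apply_of_ne_of_ne]
    · exact (ne _ _ lw' hlx).symm
    · exact (ne _ _ lu hlx).symm
  have c1 : (swap v a * swap v' b) v = a := by
    rw [Perm.mul_apply, swap_apply_of_ne_of_ne (Ne.symm h4) (Ne.symm b1), swap_apply_left]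
  have c2 : (swap v a * swap v' b) a = v := by
    rw [Perm.mul_apply, swap_apply_of_ne_of_ne a2 (Ne.symm b3), swap_apply_right]
  have c3 : (swap v a * swap v' b) v' = b := by
    rw [Perm.mul_apply, swap_apply_left, swap_apply_of_ne_of_ne b1 b3]
  have c4 : (swap v a * swap v' b) b = v' := by
    rw [Perm.mul_apply, swap_apply_right, swap_apply_of_ne_of_ne h4 (Ne.symm a2)]
  have d1 : (swap w' u * (swap v a * swap v' b)) a = v := by rw [k3 a la, c2]
  have d2 : (swap w' u * (swap v a * swap v' b)) b = v' := by rw [k3 b lb, c4]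
  have i1 : (swap w' u * (swap v a * swap v' b))⁻¹ v = a := by rw [Perm.inv_eq_iff_eq, d1]
  have i2 : (swap w' u * (swap v a * swap v' b))⁻¹ v' = b := by rw [Perm.inv_eq_iff_eq, d2]
  have m1 : (swap w' u * (swap v a * swap v' b)) w' = u := by rw [k1 _ lw', swap_apply_left]
  have m2 : (swap w' u * (swap v a * swap v' b)) w = w := by
    rw [k1 _ rfl, swap_apply_of_ne_of_ne h1.symm (Ne.symm u1)]
  have m3 : (swap w' u * (swap v a * swap v' b))⁻¹ w = w := by
    rw [k2 _ rfl, swap_apply_of_ne_of_ne h1.symm (Ne.symm u1)]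
  have m4 : (swap w' u * (swap v a * swap v' b))⁻¹ u = w' := by
    rw [k2 _ lu, swap_apply_right]
  generalize swap w' u * (swap v a * swap v' b) = h at *
  have s1 : (t * (h * t * h⁻¹)) w = u := by
    simp only [Perm.mul_apply, m3, ← hw', m1, tu]
  have s2 : (t * (h * t * h⁻¹)) u = w' := by
    simp only [Perm.mul_apply, m4, e1, m2, ← hw']
  have s3 : (t * (h * t * h⁻¹)) v = v' := by
    simp only [Perm.mul_apply, i1, ta, d1, ← hv']
  have s4 : (t * (h * t * h⁻¹)) v' = v := by
    simp only [Perm.mul_apply, i2, tb, d2, e2]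
  generalize t * (h * t * h⁻¹) = s at *
  rcases hc' with hc' | hc'
  · have := congrArg (fun p : Perm (List Bool) => p w) hc'
    simp only [pow_succ, pow_zero, one_mul, Perm.mul_apply, s1, s2, Perm.one_apply] at this
    exact h1 this
  · have := congrArg (fun p : Perm (List Bool) => p v) hc'
    simp only [pow_succ, pow_zero, one_mul, Perm.mul_apply, s3, s4, Perm.one_apply] at this
    exact h4 this

end Pool.Agent.V7H56.RG
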