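import Pool.Agent.V7H56.RG.SP

/-!
# The group of the length-preserving permutations computable in polynomial space
-/

namespace Pool.Agent.V7H56.RG

open Pool.Agent.NPC Pool.Agent.NPC.PIso Pool.Agent.V7H56.PP
open Function (minimalPeriod)

variable {α β γ δ : Type} [TEnc α] [TEnc β] [TEnc γ] [TEnc δ]

namespace SP

section

variable {f : List Bool → List Bool} (hf : LI f) (hp : SP f)

include hf hp

theorem pw {k : α → ℕ} {x : α → List Bool} (hk : SP k) (hx : SP x) :
    SP (fun a => f^[k a] (x a)) := by
  obtain ⟨q, hq⟩ := hx.sz_le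
  refine iter (G := fun (_ : α) w => f w) hk hx (hp.comp (snd id)) (4 * q + 1) fun a i _ => ?_
  change sz (f^[i] (x a)) ≤ _
  have h1 := sz_listBool_le (f^[i] (x a))
  rw [hf.iter_len] at h1
  have h2 := sz_listBool_ge (x a)
  have h3 := hq a
  simp only [Polynomial.eval_add, Polynomial.eval_mul, Polynomial.eval_ofNat,
    Polynomial.eval_one]
  omega

theorem period {x : α → List Bool} (hx : SP x) :
    SP (fun a => minimalPeriod f (x a)) := by
  have h1 : SP (fun w : List Bool =>
      PP.lst (fun k => decide (f^[k + 1] w = w)) (2 ^ w.length) + 1) :=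
    succ (lst (p := fun w k => decide (f^[k + 1] w = w))
      (two_pow_length id) (decide_eq
        (pw hf hp (succ (snd id)) (fst id)) (fst id)))
  have h2 : SP (minimalPeriod f : List Bool → ℕ) := by
    refine h1.congr fun w => ?_
    have hpos := hf.period_pos w
    have e : PP.lst (fun k => decide (f^[k + 1] w = w)) (2 ^ w.length) =
        minimalPeriod f w - 1 := by
      apply lst_eq_of
      · have := hf.period_le w
        omega
      · rw [decide_eq_true_iff, Nat.sub_add_cancel hpos]
        exact Function.iterate_minimalPeriod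
      · intro i hi
        rw [decide_eq_false_iff_not]
        exact Function.not_isPeriodicPt_of_pos_of_lt_minimalPeriod (by omega) (by omega)
    rw [e]
    omega
  exact h2.comp hx

open Classical in
theorem isMin {x : α → List Bool} (hx : SP x) :
    SP (fun a => decide (IsMin f (x a))) := by
  have h1 : SP (fun w : List Bool =>
      decide (PP.lst (fun k => decide (valB (f^[k] w) < valB w)) (2 ^ w.length) =
        2 ^ w.length)) :=
    decide_eq (lst (p := fun w k => decide (valB (f^[k] w) < valB w))
      (two_pow_length id) (decide_lt (app (Poly.valBits Poly.id)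
        (pw hf hp (snd id) (fst id)))
        (app (Poly.valBits Poly.id) (fst id)))) (two_pow_length id)
  have h2 : SP (fun w : List Bool => decide (IsMin f w)) := by
    refine h1.congr fun w => ?_
    rw [decide_eq_decide, lst_eq_iff]
    constructor
    · intro h k
      rw [← Function.iterate_mod_minimalPeriod_eq]
      have := h (k % minimalPeriod f w)
        ((Nat.mod_lt _ (hf.period_pos w)).trans_le (hf.period_le w))
      rw [decide_eq_false_iff_not] at this
      exact not_lt.1 this
    · intro h k _
      rw [decide_eq_false_iff_not]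
      exact not_lt.2 (h k)
  exact h2.comp hx

theorem mi {x : α → List Bool} (hx : SP x) : SP (fun a => mi f (x a)) := by
  classical
  have h1 : SP (fun w : List Bool => PP.mi f w) :=
    lst (p := fun w k => decide (IsMin f (f^[k] w))) (two_pow_length id)
      (isMin hf hp (pw hf hp (snd id) (fst id)))
  exact h1.comp hx

theorem mn {x : α → List Bool} (hx : SP x) : SP (fun a => mn f (x a)) :=
  pw hf hp (mi hf hp hx) hx

theorem di {x : α → List Bool} (hx : SP x) : SP (fun a => di f (x a)) := by
  have h1 : SP (fun w : List Bool => PP.di f w) :=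
    lst (p := fun w k => decide (f^[k] (PP.mn f w) = w)) (two_pow_length id)
      (decide_eq (pw hf hp (snd id) (mn hf hp (fst id))) (fst id))
  exact h1.comp hx

theorem rfx : SP (rfx f) :=
  pw hf hp (sub (period hf hp id) (di hf hp id)) (mn hf hp id)

end

end SP

/-- The graph of a function on strings, as a language of coded pairs. -/
def graph (g : List Bool → List Bool) : Set (List Bool) := {w | ∃ x, w = pairBits x (g x)}

open Classical in
theorem inPSPACE_graph {g : List Bool → List Bool} (h : SP g) : InPSPACE (graph g) := by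
  have h1 : SP (fun w : List Bool => decide (pairBits (unpair w).1 (g (unpair w).1) = w)) :=
    SP.decide_eq (SP.app2 (h := fun x y => pairBits x y)
      (poly_pairBits (Poly.fst Poly.id) (Poly.snd Poly.id)) (SP.of_poly (Poly.fst poly_unpair))
      (h.comp (SP.of_poly (Poly.fst poly_unpair)))) SP.id
  have h2 := h1.inPSPACE
  have e : {w | decide (pairBits (unpair w).1 (g (unpair w).1) = w) = true} = graph g := by
    ext w
    simp only [Set.mem_ofPred_eq, decide_eq_true_iff]
    constructor
    · intro h; exact ⟨_, h.symm⟩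
    · rintro ⟨x, rfl⟩
      rw [unpair_pairBits]
  rwa [e] at h2

theorem sp_of_graph {g : List Bool → List Bool} (hl : ∀ w, (g w).length = w.length)
    (h : InPSPACE (graph g)) : SP g := by
  classical
  have h1 := SP.of_inPSPACE h
  have h2 : SP (fun q : List Bool × ℕ => decide (pairBits q.1 (pad q.1.length q.2) ∈ graph g)) :=
    h1.comp (SP.of_poly (poly_pairBits (Poly.fst Poly.id)
      (poly_pad (UPoly.length (Poly.fst Poly.id)) (Poly.snd Poly.id))))
  have h3 : SP (fun x : List Bool =>
      lst (fun k => decide (pairBits x (pad x.length k) ∈ graph g)) (2 ^ x.length)) :=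
    SP.lst (p := fun x k => decide (pairBits x (pad x.length k) ∈ graph g))
      (SP.two_pow_length SP.id) h2
  have h4 : SP (fun x : List Bool => pad x.length
      (lst (fun k => decide (pairBits x (pad x.length k) ∈ graph g)) (2 ^ x.length))) :=
    SP.app2 (h := fun (x : List Bool) (k : ℕ) => pad x.length k)
      (poly_pad (UPoly.length (Poly.fst Poly.id)) (Poly.snd Poly.id)) SP.id h3
  refine h4.congr fun x => ?_
  have h5 : ∃ k < 2 ^ x.length,
      (fun k => decide (pairBits x (pad x.length k) ∈ graph g)) k = true := by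
    refine ⟨valB (g x), ?_, ?_⟩
    · rw [← hl x]; exact valB_lt _
    · simp only [decide_eq_true_iff]
      exact ⟨x, by rw [pad_valB (hl x)]⟩
  have h6 := (lst_spec h5).2
  simp only [decide_eq_true_iff] at h6
  obtain ⟨x', hx'⟩ := h6
  have h7 := congrArg unpair hx'
  rw [unpair_pairBits, unpair_pairBits, Prod.mk.injEq] at h7
  obtain ⟨rfl, h8⟩ := h7
  exact h8

/-- The group of the length-preserving permutations of the set of bit strings whose graphs belong
to `PSPACE`. -/
def SPerm : Subgroup (Equiv.Perm (List Bool)) where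
  carrier := {g | (∀ w, (g w).length = w.length) ∧ InPSPACE (graph g)}
  mul_mem' {a b} ha hb := by
    refine ⟨fun w => ?_, ?_⟩
    · rw [Equiv.Perm.mul_apply, ha.1, hb.1]
    · exact inPSPACE_graph ((sp_of_graph ha.1 ha.2).comp (sp_of_graph hb.1 hb.2))
  one_mem' := ⟨fun w => rfl, inPSPACE_graph SP.id⟩
  inv_mem' {a} ha := by
    have hl : ∀ w, (a⁻¹ w).length = w.length := by
      intro w
      have h := ha.1 (a.symm w)
      rw [a.apply_symm_apply] at h
      exact h.symm
    refine ⟨hl, ?_⟩
    classical
    have h1 := SP.of_inPSPACE ha.2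
    have h2 : SP (fun w : List Bool => decide (pairBits (unpair w).2 (unpair w).1 ∈ graph a) &&
        decide (pairBits (unpair w).1 (unpair w).2 = w)) := by
      refine SP.app2 (h := fun x y : Bool => x && y) (Poly.and (Poly.fst Poly.id)
        (Poly.snd Poly.id)) (h1.comp (SP.of_poly (poly_pairBits (Poly.snd poly_unpair)
          (Poly.fst poly_unpair)))) (SP.of_poly (Poly.decide_eq (poly_pairBits
            (Poly.fst poly_unpair) (Poly.snd poly_unpair)) Poly.id))
    have h3 := h2.inPSPACE
    have e : {w | (decide (pairBits (unpair w).2 (unpair w).1 ∈ graph a) &&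
        decide (pairBits (unpair w).1 (unpair w).2 = w)) = true} = graph (a⁻¹ : Equiv.Perm _) := by
      ext w
      simp only [Set.mem_ofPred_eq, Bool.and_eq_true, decide_eq_true_iff]
      constructor
      · rintro ⟨⟨x, hx⟩, h5⟩
        have h6 := congrArg unpair hx
        rw [unpair_pairBits, unpair_pairBits, Prod.mk.injEq] at h6
        refine ⟨a x, ?_⟩
        have h7 : a⁻¹ (a x) = x := a.symm_apply_apply x
        rw [h7, ← h5, h6.1, h6.2]
      · rintro ⟨x, rfl⟩
        rw [unpair_pairBits]
        have h7 : a (a⁻¹ x) = x := a.apply_symm_apply x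
        exact ⟨⟨a⁻¹ x, by rw [h7]⟩, rfl⟩
    rwa [e] at h3

theorem mem_SPerm {g : Equiv.Perm (List Bool)} : g ∈ SPerm ↔ g ∈ LPerm ∧ SP g :=
  ⟨fun h => ⟨h.1, sp_of_graph h.1 h.2⟩, fun h => ⟨h.1, inPSPACE_graph h.2⟩⟩

theorem SPerm_le : SPerm ≤ LPerm := fun _ h => h.1

theorem PPerm_le_SPerm : PPerm ≤ SPerm := fun _ h =>
  mem_SPerm.2 ⟨h.1, SP.of_poly (poly_iff.2 h.2.1)⟩

/-- Every permutation computable in polynomial space is a product of two involutions computable in
polynomial space. -/
theorem SPerm_strongly_real {g : Equiv.Perm (List Bool)} (hg : g ∈ SPerm) :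
    ∃ a ∈ SPerm, ∃ b ∈ SPerm, a * a = 1 ∧ b * b = 1 ∧ g = a * b := by
  have hL := SPerm_le hg
  have hpg : SP g := (mem_SPerm.1 hg).2
  have ha : rfxP (li_of_mem hL) ∈ SPerm := mem_SPerm.2 ⟨rfxP_mem hL, SP.rfx (li_of_mem hL) hpg⟩
  refine ⟨_, ha, _, SPerm.mul_mem ha hg, rfxP_sq _, rfxP_mul_sq hL, ?_⟩
  rw [← mul_assoc, rfxP_sq, one_mul]

theorem SPerm_ambivalent {g : Equiv.Perm (List Bool)} (hg : g ∈ SPerm) :
    ∃ h ∈ SPerm, h * g * h⁻¹ = g⁻¹ := by
  obtain ⟨a, ha, b, hb, h1, h2, rfl⟩ := SPerm_strongly_real hg
  refine ⟨a, ha, ?_⟩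
  rw [inv_of_sq h1, mul_inv_rev, inv_of_sq h1, inv_of_sq h2, ← mul_assoc, h1, one_mul]

end Pool.Agent.V7H56.RG
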