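import Pool.Agent.V7H56.RG.Recon
import Pool.Agent.V7H56.RG.SPerm
import Pool.Agent.V7H56.PP.LFlex

/-!
# The permutation which induces an isomorphism can be computed
-/

namespace Pool.Agent.V7H56.RG

open Pool.Agent.NPC Pool.Agent.NPC.PIso Pool.Agent.V7H56.PP Equiv

/-! ### Three permutations -/

/-- the first bit is moved to the end -/
def rot : List Bool → List Bool
  | [] => []
  | a :: l => l ++ [a]

/-- the last bit is moved to the front -/
def roti (w : List Bool) : List Bool :=
  match w.reverse with
  | [] => []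
  | a :: l => a :: l.reverse

/-- the first bit is changed -/
def flp : List Bool → List Bool
  | [] => []
  | a :: l => (!a) :: l

/-- the first bit is added to the second bit -/
def cnot : List Bool → List Bool
  | a :: b :: l => a :: (a ^^ b) :: l
  | w => w

theorem roti_rot (w : List Bool) : roti (rot w) = w := by
  cases w with
  | nil => rfl
  | cons a l =>
    unfold roti rot
    rw [List.reverse_append]
    simp

theorem rot_roti (w : List Bool) : rot (roti w) = w := by
  have h : w = w.reverse.reverse := (List.reverse_reverse w).symm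
  unfold roti
  rw [h, List.reverse_reverse]
  cases w.reverse with
  | nil => rfl
  | cons a l => simp [rot]

theorem flp_flp (w : List Bool) : flp (flp w) = w := by
  cases w <;> simp [flp]

theorem cnot_cnot (w : List Bool) : cnot (cnot w) = w := by
  match w with
  | [] => rfl
  | [_] => rfl
  | a :: b :: l => simp [cnot]

/-- The cyclic shift of strings: the first bit is moved to the end. -/
def rotP : Perm (List Bool) := ⟨rot, roti, roti_rot, rot_roti⟩

/-- The permutation which changes the first bit. -/
def flpP : Perm (List Bool) := ⟨flp, flp, flp_flp, flp_flp⟩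

/-- The permutation which adds the first bit to the second bit. -/
def cnotP : Perm (List Bool) := ⟨cnot, cnot, cnot_cnot, cnot_cnot⟩

theorem rot_len (w : List Bool) : (rot w).length = w.length := by
  cases w <;> simp [rot]

theorem flp_len (w : List Bool) : (flp w).length = w.length := by
  cases w <;> simp [flp]

theorem cnot_len (w : List Bool) : (cnot w).length = w.length := by
  match w with
  | [] => rfl
  | [_] => rfl
  | a :: b :: l => simp [cnot]

theorem poly_rot : Poly rot := by
  refine (Poly.listCases (l := fun w : List Bool => w) (g := fun _ => []) (h := fun _ a l => l ++ [a])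
    Poly.id (NPC.Poly.const _) (Poly.append (Poly.snd (Poly.snd Poly.id))
      (Poly.cons (Poly.fst (Poly.snd Poly.id)) (NPC.Poly.const [])))).congr fun w => ?_
  cases w <;> rfl

theorem poly_roti : Poly roti := by
  refine (Poly.listCases (l := fun w : List Bool => w.reverse) (g := fun _ => [])
    (h := fun _ a l => a :: l.reverse) (Poly.reverse Poly.id) (NPC.Poly.const _)
      (Poly.cons (Poly.fst (Poly.snd Poly.id)) (Poly.reverse (Poly.snd (Poly.snd Poly.id))))).congr
      fun w => ?_
  unfold roti
  cases w.reverse <;> rfl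

theorem poly_flp : Poly flp := by
  refine (Poly.listCases (l := fun w : List Bool => w) (g := fun _ => []) (h := fun _ a l => (!a) :: l)
    Poly.id (NPC.Poly.const _) (Poly.cons (Poly.not (Poly.fst (Poly.snd Poly.id)))
      (Poly.snd (Poly.snd Poly.id)))).congr fun w => ?_
  cases w <;> rfl

theorem poly_cnot : Poly cnot := by
  refine (Poly.listCases (l := fun w : List Bool => w) (g := fun w => w)
    (h := fun w a l => List.casesOn l w (fun b l => a :: (a ^^ b) :: l))
    Poly.id Poly.id ?_).congr fun w => ?_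
  · refine (Poly.listCases (l := fun p : List Bool × Bool × List Bool => p.2.2) (g := fun p => p.1)
      (h := fun p b l => p.2.1 :: (p.2.1 ^^ b) :: l) (Poly.snd (Poly.snd Poly.id))
      (Poly.fst Poly.id) ?_).congr fun p => ?_
    · exact Poly.cons (Poly.fst (Poly.snd (Poly.fst Poly.id))) (Poly.cons
        (Poly.xor (Poly.fst (Poly.snd (Poly.fst Poly.id))) (Poly.fst (Poly.snd Poly.id)))
        (Poly.snd (Poly.snd Poly.id)))
    · obtain ⟨w, a, l⟩ := p
      cases l <;> rfl
  · match w with
    | [] => rfl
    | [_] => rfl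
    | a :: b :: l => rfl

theorem rotP_mem : rotP ∈ PPerm := ⟨rot_len, poly_iff.1 poly_rot, poly_iff.1 poly_roti⟩
theorem flpP_mem : flpP ∈ PPerm := ⟨flp_len, poly_iff.1 poly_flp, poly_iff.1 poly_flp⟩
theorem cnotP_mem : cnotP ∈ PPerm := ⟨cnot_len, poly_iff.1 poly_cnot, poly_iff.1 poly_cnot⟩

/-! ### Classes of functions -/

/-- Classes of functions closed under some simple constructions. -/
structure FC (C : ∀ (α β : Type) [TEnc α] [TEnc β], (α → β) → Prop) : Prop where
  of_poly : ∀ {α β : Type} [TEnc α] [TEnc β] {f : α → β}, Poly f → C α β f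
  comp : ∀ {α β γ : Type} [TEnc α] [TEnc β] [TEnc γ] {g : β → γ} {f : α → β}, C β γ g → C α β f →
    C α γ (fun a => g (f a))
  pair : ∀ {α β γ : Type} [TEnc α] [TEnc β] [TEnc γ] {f : α → β} {g : α → γ}, C α β f → C α γ g →
    C α (β × γ) (fun a => (f a, g a))
  iter : ∀ {α β : Type} [TEnc α] [TEnc β] {n : α → ℕ} {s : α → β} {G : β → β}, UPoly n →
    C α β s → C β β G → ∀ q : Polynomial ℕ,
    (∀ a, ∀ i ≤ n a, sz (G^[i] (s a)) ≤ q.eval (sz a)) → C α β (fun a => G^[n a] (s a))

theorem FC_poly : FC (fun α β [TEnc α] [TEnc β] (f : α → β) => Poly f) where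
  of_poly h := h
  comp h h' := h.comp h'
  pair h h' := Poly.pair h h'
  iter hn hs hG q hq := poly_uiter (G := fun _ => _) hn hs (hG.comp (Poly.snd Poly.id)) q hq

theorem FC_sp : FC (fun α β [TEnc α] [TEnc β] (f : α → β) => SP f) where
  of_poly h := SP.of_poly h
  comp h h' := h.comp h'
  pair h h' := SP.pair h h'
  iter hn hs hG q hq := SP.iter (G := fun _ => _) (SP.of_poly hn.toPoly) hs
    (hG.comp (SP.snd SP.id)) q hq

/-! ### The computation -/

section

variable (r t m : List Bool → List Bool)

/-- reading off the string -/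
def rdS (s : List Bool × List Bool) : List Bool × List Bool :=
  (r s.1, s.2 ++ [!decide (m s.1 = s.1)])

/-- writing the string -/
def wrS (s : List Bool × List Bool) : List Bool × List Bool :=
  (r (bif s.2.headD false then t s.1 else s.1), s.2.tail)

variable {r t m} {θ : List Bool → List Bool} (hθ : Function.Injective θ)
  (hr : ∀ x, 3 ≤ x.length → θ (rot x) = r (θ x)) (ht : ∀ x, 3 ≤ x.length → θ (flp x) = t (θ x))
  (hm : ∀ x, 3 ≤ x.length → θ (cnot x) = m (θ x))

include hr ht

theorem wr_iter : ∀ (d c s : List Bool), c.length = d.length → 3 ≤ (c ++ s).length →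
    (wrS r t)^[d.length] (θ (c ++ s), d) = (θ (s ++ List.zipWith xor c d), []) := by
  intro d
  induction d with
  | nil =>
    intro c s hc hl
    obtain rfl : c = [] := List.length_eq_zero_iff.1 hc
    simp
  | cons b d ih =>
    intro c s hc hl
    obtain ⟨a, c, rfl⟩ : ∃ a c', c = a :: c' := by
      cases c with
      | nil => simp at hc
      | cons a c => exact ⟨a, c, rfl⟩
    rw [List.length_cons, Function.iterate_succ_apply]
    have e : wrS r t (θ (a :: c ++ s), b :: d) = (θ (c ++ (s ++ [a ^^ b])), d) := by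
      unfold wrS
      simp only [List.headD_cons, List.tail_cons, Prod.mk.injEq, and_true]
      cases b with
      | true =>
        simp only [cond_true]
        rw [← ht _ hl, ← hr _ (by rw [flp_len]; exact hl)]
        simp [rot, flp]
      | false =>
        simp only [cond_false]
        rw [← hr _ hl]
        simp [rot]
    rw [e, ih c (s ++ [a ^^ b]) (by simpa using hc) (by simp at hl ⊢; omega)]
    simp

end

section

variable {r t m : List Bool → List Bool} {θ : List Bool → List Bool}

theorem rd_iter (hθ : Function.Injective θ)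
    (hr : ∀ x, 3 ≤ x.length → θ (rot x) = r (θ x))
    (hm : ∀ x, 3 ≤ x.length → θ (cnot x) = m (θ x)) :
    ∀ (v u acc : List Bool), 3 ≤ (v ++ u).length →
    (rdS r m)^[v.length] (θ (v ++ u), acc) = (θ (u ++ v), acc ++ v) := by
  intro v
  induction v with
  | nil => intro u acc _; simp
  | cons a v ih =>
    intro u acc hl
    rw [List.length_cons, Function.iterate_succ_apply]
    have e : rdS r m (θ (a :: v ++ u), acc) = (θ (v ++ (u ++ [a])), acc ++ [a]) := by
      unfold rdS
      simp only [Prod.mk.injEq]
      constructor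
      · rw [← hr _ hl]; simp [rot]
      · rw [← hm _ hl]
        congr 2
        obtain ⟨b, l, hbl⟩ : ∃ b l, v ++ u = b :: l := by
          cases h : v ++ u with
          | nil => simp [h] at hl
          | cons b l => exact ⟨b, l, rfl⟩
        have e1 : a :: v ++ u = a :: b :: l := by rw [List.cons_append, hbl]
        have e2 : (θ (cnot (a :: v ++ u)) = θ (a :: v ++ u)) ↔ a = false := by
          rw [hθ.eq_iff, e1]
          cases a <;> cases b <;> simp [cnot]
        rw [Bool.eq_iff_iff]
        simp only [Bool.not_eq_true', decide_eq_false_iff_not, e2, Bool.not_eq_false]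
    rw [e, ih (u ++ [a]) (acc ++ [a]) (by simp at hl ⊢; omega)]
    simp

variable {C : ∀ (α β : Type) [TEnc α] [TEnc β], (α → β) → Prop} (hC : FC C)

include hC

theorem FC.rd (Cr : C _ _ r) (Cm : C _ _ m) (hrl : ∀ w, (r w).length = w.length) :
    C _ _ (fun y : List Bool => ((rdS r m)^[y.length] (y, [])).2) := by
  have C1 : C (List Bool × List Bool) (List Bool) (fun s => s.1) := hC.of_poly (Poly.fst Poly.id)
  have C2 : C (List Bool × List Bool) (List Bool) (fun s => s.2) := hC.of_poly (Poly.snd Poly.id)
  have CS : C _ _ (rdS r m) := by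
    have h1 := hC.comp Cr C1
    have h2 := hC.comp Cm C1
    have h3 := hC.pair C2 (hC.pair h2 C1)
    have h4 : C _ _ (fun s : List Bool × List Bool => s.2 ++ [!decide (m s.1 = s.1)]) :=
      hC.comp (g := fun p : List Bool × List Bool × List Bool => p.1 ++ [!decide (p.2.1 = p.2.2)])
        (hC.of_poly (Poly.append (Poly.fst Poly.id) (Poly.cons (Poly.not (Poly.decide_eq
          (Poly.fst (Poly.snd Poly.id)) (Poly.snd (Poly.snd Poly.id)))) (NPC.Poly.const [])))) h3
    exact hC.pair h1 h4
  have key : ∀ (y : List Bool) (i : ℕ), ((rdS r m)^[i] (y, [])).1.length = y.length ∧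
      ((rdS r m)^[i] (y, [])).2.length = i := by
    intro y i
    induction i with
    | zero => exact ⟨rfl, rfl⟩
    | succ i ih =>
      rw [Function.iterate_succ_apply']
      unfold rdS at ih ⊢
      simp only [List.length_append, List.length_cons, List.length_nil]
      exact ⟨by rw [hrl]; exact ih.1, by rw [ih.2]⟩
  refine hC.comp (g := fun s : List Bool × List Bool => s.2) C2 (hC.iter (n := fun y => y.length)
    (s := fun y : List Bool => (y, [])) (UPoly.length Poly.id)
    (hC.of_poly (Poly.pair Poly.id (NPC.Poly.const []))) CS (8 * Polynomial.X + 3)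
    fun y i hi => ?_)
  obtain ⟨h1, h2⟩ := key y i
  have h3 := sz_listBool_le ((rdS r m)^[i] (y, [])).1
  have h4 := sz_listBool_le ((rdS r m)^[i] (y, [])).2
  have h5 := length_lt_sz y
  have h6 : sz ((rdS r m)^[i] (y, [])) = sz ((rdS r m)^[i] (y, [])).1 +
    sz ((rdS r m)^[i] (y, [])).2 + 1 := sz_pair _ _
  simp only [Polynomial.eval_add, Polynomial.eval_mul, Polynomial.eval_X, Polynomial.eval_ofNat]
  omega

theorem FC.wr {s : List Bool → List Bool × List Bool} (Cr : C _ _ r) (Ct : C _ _ t)
    (hrl : ∀ w, (r w).length = w.length) (htl : ∀ w, (t w).length = w.length)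
    (Cs : C _ _ s) (h1 : ∀ x, (s x).1.length = x.length) (h2 : ∀ x, (s x).2.length ≤ x.length) :
    C _ _ (fun x : List Bool => ((wrS r t)^[x.length] (s x)).1) := by
  have C1 : C (List Bool × List Bool) (List Bool) (fun s => s.1) := hC.of_poly (Poly.fst Poly.id)
  have C2 : C (List Bool × List Bool) (List Bool) (fun s => s.2) := hC.of_poly (Poly.snd Poly.id)
  have CS : C _ _ (wrS r t) := by
    have k1 := hC.pair C2 (hC.pair (hC.comp Ct C1) C1)
    have k2 : C _ _ (fun s : List Bool × List Bool => bif s.2.headD false then t s.1 else s.1) := by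
      refine hC.comp (g := fun p : List Bool × List Bool × List Bool =>
        bif p.1.headD false then p.2.1 else p.2.2) (hC.of_poly (Poly.cond ?_
          (Poly.fst (Poly.snd Poly.id)) (Poly.snd (Poly.snd Poly.id)))) k1
      refine (Poly.listCases (l := fun p : List Bool × List Bool × List Bool => p.1)
        (g := fun _ => false) (h := fun _ b _ => b) (Poly.fst Poly.id) (NPC.Poly.const false)
        (Poly.fst (Poly.snd Poly.id))).congr fun p => ?_
      obtain ⟨l, p⟩ := p
      cases l <;> rfl
    exact hC.pair (hC.comp Cr k2) (hC.comp (g := fun l : List Bool => l.tail)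
      (hC.of_poly (Poly.tail Poly.id)) C2)
  have key : ∀ (x : List Bool) (i : ℕ), ((wrS r t)^[i] (s x)).1.length = x.length ∧
      ((wrS r t)^[i] (s x)).2.length ≤ x.length := by
    intro x i
    induction i with
    | zero => exact ⟨h1 x, h2 x⟩
    | succ i ih =>
      rw [Function.iterate_succ_apply']
      generalize (wrS r t)^[i] (s x) = u at ih ⊢
      unfold wrS
      simp only [List.length_tail]
      refine ⟨?_, by omega⟩
      rw [hrl]
      cases u.2.headD false
      · exact ih.1
      · rw [cond_true, htl]; exact ih.1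
  refine hC.comp (g := fun s : List Bool × List Bool => s.1) C1 (hC.iter (n := fun y => y.length)
    (s := s) (UPoly.length Poly.id) Cs CS (8 * Polynomial.X + 3) fun x i hi => ?_)
  obtain ⟨h1, h2⟩ := key x i
  have h3 := sz_listBool_le ((wrS r t)^[i] (s x)).1
  have h4 := sz_listBool_le ((wrS r t)^[i] (s x)).2
  have h5 := length_lt_sz x
  have h6 : sz ((wrS r t)^[i] (s x)) = sz ((wrS r t)^[i] (s x)).1 +
    sz ((wrS r t)^[i] (s x)).2 + 1 := sz_pair _ _
  simp only [Polynomial.eval_add, Polynomial.eval_mul, Polynomial.eval_X, Polynomial.eval_ofNat]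
  omega

end

theorem zipWith_xor (c x : List Bool) (h : c.length = x.length) :
    List.zipWith xor c (List.zipWith xor c x) = x := by
  induction c generalizing x with
  | nil => obtain rfl : x = [] := List.length_eq_zero_iff.1 h.symm; rfl
  | cons a c ih =>
    cases x with
    | nil => simp at h
    | cons b x =>
      simp only [List.zipWith_cons_cons, List.cons.injEq]
      exact ⟨by simp, ih x (by simpa using h)⟩

/-- A permutation of the strings is computable in a class of functions if it conjugates three
simple permutations into the class. -/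
theorem FC.perm {C : ∀ (α β : Type) [TEnc α] [TEnc β], (α → β) → Prop} (hC : FC C)
    {θ : Perm (List Bool)} (hθ : θ ∈ LPerm) (h3 : ∀ x : List Bool, x.length < 3 → θ x = x)
    {r t m : List Bool → List Bool} (Cr : C _ _ r) (Ct : C _ _ t) (Cm : C _ _ m)
    (hrl : ∀ w, (r w).length = w.length) (htl : ∀ w, (t w).length = w.length)
    (hr : ∀ x, 3 ≤ x.length → θ (rot x) = r (θ x)) (ht : ∀ x, 3 ≤ x.length → θ (flp x) = t (θ x))
    (hm : ∀ x, 3 ≤ x.length → θ (cnot x) = m (θ x)) :
    C (List Bool) (List Bool) θ ∧ C (List Bool) (List Bool) θ.symm := by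
  have hpc : Poly (fun p : List Bool × List Bool => bif decide (p.1.length < 3) then p.1 else p.2) :=
    Poly.cond (Poly.decide_lt (Poly.length (Poly.fst Poly.id)) (NPC.Poly.const 3))
      (Poly.fst Poly.id) (Poly.snd Poly.id)
  have hCid : C (List Bool) (List Bool) (fun y => y) := hC.of_poly Poly.id
  have h4 : C (List Bool) (List Bool) θ.symm := by
    have h5 := hC.comp (hC.of_poly hpc) (hC.pair hCid (hC.rd Cr Cm hrl))
    have e : (fun y : List Bool => bif decide (y.length < 3) then y
        else ((rdS r m)^[y.length] (y, [])).2) = θ.symm := by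
      funext y
      by_cases hy : y.length < 3
      · rw [decide_eq_true hy, cond_true, Equiv.eq_symm_apply]
        exact h3 y hy
      · rw [decide_eq_false hy, cond_false]
        obtain ⟨x, rfl⟩ := θ.surjective y
        rw [hθ x, Equiv.symm_apply_apply]
        have h6 := rd_iter θ.injective hr hm x [] [] (by
          rw [List.append_nil, ← hθ x]; omega)
        rw [List.append_nil] at h6
        rw [h6]; rfl
    rw [← e]
    exact h5
  refine ⟨?_, h4⟩
  have hrep : Poly (fun x : List Bool => List.replicate x.length false) :=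
    poly_replicate_false (UPoly.length Poly.id)
  have hz : Poly (fun p : List Bool × List Bool => List.zipWith xor p.1 p.2) := by
    refine (NPC.Poly.map (F := fun (_ : List Bool × List Bool) (q : Bool × Bool) => (q.1 ^^ q.2))
      (Poly.zip (Poly.fst Poly.id) (Poly.snd Poly.id)) (Poly.xor (Poly.fst (Poly.snd Poly.id))
        (Poly.snd (Poly.snd Poly.id)))).congr fun p => ?_
    rw [List.zip, List.map_zipWith]
  let s : List Bool → List Bool × List Bool := fun x =>
    (List.replicate x.length false,
      List.zipWith xor (θ.symm (List.replicate x.length false)) x)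
  have Cs : C _ _ s := by
    have k1 : C _ _ (fun x : List Bool => List.replicate x.length false) := hC.of_poly hrep
    exact hC.pair k1 (hC.comp (hC.of_poly hz) (hC.pair (hC.comp h4 k1) hCid))
  have hcl : ∀ x : List Bool, (θ.symm (List.replicate x.length false)).length = x.length := by
    intro x
    have := hθ (θ.symm (List.replicate x.length false))
    rw [Equiv.apply_symm_apply, List.length_replicate] at this
    exact this.symm
  have h5 := hC.comp (hC.of_poly hpc) (hC.pair hCid (hC.wr Cr Ct hrl htl Cs
    (fun x => List.length_replicate) (fun x => by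
      change (List.zipWith _ _ _).length ≤ _
      rw [List.length_zipWith]; exact min_le_right _ _)))
  have e : (fun x : List Bool => bif decide (x.length < 3) then x
      else ((wrS r t)^[x.length] (s x)).1) = θ := by
    funext x
    by_cases hx : x.length < 3
    · rw [decide_eq_true hx, cond_true]
      exact (h3 x hx).symm
    · rw [decide_eq_false hx, cond_false]
      have hl : (List.zipWith xor (θ.symm (List.replicate x.length false)) x).length =
          x.length := by
        rw [List.length_zipWith, hcl, min_self]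
      have h6 := wr_iter hr ht (List.zipWith xor (θ.symm (List.replicate x.length false)) x)
        (θ.symm (List.replicate x.length false)) [] (by rw [hl, hcl])
        (by rw [List.append_nil, hcl]; omega)
      rw [hl, List.append_nil, Equiv.apply_symm_apply, List.nil_append,
        zipWith_xor _ _ (hcl x)] at h6
      exact congrArg Prod.fst h6
  rw [← e]
  exact h5

/-! ### Isomorphisms -/

/-- Groups of length-preserving permutations which contain all transpositions contain all
permutations with finite support. -/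
theorem Big.fin {G : Subgroup (Perm (List Bool))} (hG : Big G) : ∀ (l : List (List Bool))
    (h : Perm (List Bool)), h ∈ LPerm → (∀ x, x ∉ l → h x = x) → h ∈ G := by
  intro l
  induction l with
  | nil =>
    intro h _ h1
    have : h = 1 := Equiv.ext fun x => h1 x List.not_mem_nil
    rw [this]; exact G.one_mem
  | cons a l ih =>
    intro h hL h1
    have hs : swap a (h a) ∈ G := hG.sw a (h a) (hL a).symm
    have h2 : swap a (h a) * h ∈ G := by
      refine ih _ (LPerm.mul_mem (hG.le hs) hL) fun x hx => ?_
      rw [Perm.mul_apply]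
      by_cases hxa : x = a
      · subst hxa; rw [swap_apply_right]
      · have h3 : h x = x := h1 x (by simp [hxa, hx])
        rw [h3]
        refine swap_apply_of_ne_of_ne hxa fun e => hxa ?_
        apply h.injective
        rw [h3]; exact e
    have h4 := G.mul_mem hs h2
    rwa [← mul_assoc, swap_mul_self, one_mul] at h4

theorem Big.fin' {G : Subgroup (Perm (List Bool))} (hG : Big G) (h : Perm (List Bool))
    (hL : h ∈ LPerm) (h3 : ∀ x : List Bool, 3 ≤ x.length → h x = x) : h ∈ G := by
  have hf := List.finite_length_lt Bool 3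
  refine hG.fin hf.toFinset.toList h hL fun x hx => h3 x ?_
  by_contra hcon
  apply hx
  rw [Finset.mem_toList, Set.Finite.mem_toFinset]
  exact not_le.1 hcon

theorem swap_mem {x y : List Bool} (h : x.length = y.length) : swap x y ∈ PPerm := by
  have h1 : Poly (fun w : List Bool => bif decide (w = x) then y else bif decide (w = y) then x
      else w) :=
    Poly.cond (Poly.decide_eq Poly.id (NPC.Poly.const x)) (NPC.Poly.const y)
      (Poly.cond (Poly.decide_eq Poly.id (NPC.Poly.const y)) (NPC.Poly.const x) Poly.id)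
  have h2 : Poly (swap x y) := by
    refine h1.congr fun w => ?_
    rw [swap_apply_def]
    by_cases hx : w = x
    · simp [hx]
    · by_cases hy : w = y
      · simp [hx, hy]
      · simp [hx, hy]
  refine ⟨fun w => ?_, poly_iff.1 h2, poly_iff.1 h2⟩
  rw [swap_apply_def]
  split_ifs with k1 k2
  · rw [k1, h]
  · rw [k2, h]
  · rfl

theorem big_PPerm : Big PPerm := ⟨PPerm_le, fun _ _ h => swap_mem h⟩

theorem big_SPerm : Big SPerm := ⟨SPerm_le, fun _ _ h => PPerm_le_SPerm (swap_mem h)⟩

/-- **Recognition.** -/
theorem recog {C : ∀ (α β : Type) [TEnc α] [TEnc β], (α → β) → Prop} (hC : FC C)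
    {K : Subgroup (Perm (List Bool))} (hK : Big K)
    (hK' : ∀ g : Perm (List Bool), g ∈ K ↔ g ∈ LPerm ∧ C _ _ g ∧ C _ _ g.symm)
    {G : Subgroup (Perm (List Bool))} (hG : Big G) (h1 : rotP ∈ G) (h2 : flpP ∈ G)
    (h3 : cnotP ∈ G) (Φ : G ≃* K) : G = K ∧ ∃ θ ∈ K, ∀ (g : G) (x : List Bool), 3 ≤ x.length →
      θ ((g : Perm (List Bool)) x) = (Φ g : Perm (List Bool)) (θ x) := by
  obtain ⟨θ, _, _, hL, h4, h5⟩ := recon hG hK Φ
  have hθ : θ ∈ K := by
    rw [hK']
    refine ⟨hL, ?_⟩
    exact hC.perm hL h4 (r := (Φ ⟨rotP, h1⟩ : Perm (List Bool)))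
      (t := (Φ ⟨flpP, h2⟩ : Perm (List Bool))) (m := (Φ ⟨cnotP, h3⟩ : Perm (List Bool)))
      ((hK' _).1 (Φ _).2).2.1 ((hK' _).1 (Φ _).2).2.1 ((hK' _).1 (Φ _).2).2.1
      (hK.le (Φ _).2) (hK.le (Φ _).2) (h5 ⟨rotP, h1⟩) (h5 ⟨flpP, h2⟩) (h5 ⟨cnotP, h3⟩)
  refine ⟨?_, θ, hθ, h5⟩
  have hinv : ∀ x, θ (θ⁻¹ x) = x := θ.apply_symm_apply
  have hinv' : ∀ x, θ⁻¹ (θ x) = x := θ.symm_apply_apply
  apply le_antisymm
  · intro g hg
    have k1 : θ⁻¹ * (Φ ⟨g, hg⟩ : Perm (List Bool)) * θ ∈ K :=
      K.mul_mem (K.mul_mem (K.inv_mem hθ) (Φ _).2) hθ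
    have k2 : (θ⁻¹ * (Φ ⟨g, hg⟩ : Perm (List Bool)) * θ)⁻¹ * g ∈ K := by
      refine hK.fin' _ (LPerm.mul_mem (LPerm.inv_mem (hK.le k1)) (hG.le hg)) fun x hx => ?_
      rw [Perm.mul_apply, Perm.inv_eq_iff_eq, Perm.mul_apply, Perm.mul_apply]
      have := h5 ⟨g, hg⟩ x hx
      simp only at this
      rw [← this, hinv']
    have k3 := K.mul_mem k1 k2
    rwa [mul_inv_cancel_left] at k3
  · intro p hp
    have k1 : θ * p * θ⁻¹ ∈ K := K.mul_mem (K.mul_mem hθ hp) (K.inv_mem hθ)
    let g : G := Φ.symm ⟨_, k1⟩
    have k2 : (g : Perm (List Bool))⁻¹ * p ∈ G := by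
      refine hG.fin' _ (LPerm.mul_mem (LPerm.inv_mem (hG.le g.2)) (hK.le hp)) fun x hx => ?_
      rw [Perm.mul_apply, Perm.inv_eq_iff_eq]
      apply θ.injective
      rw [h5 g x hx]
      have e : Φ g = ⟨θ * p * θ⁻¹, k1⟩ := Φ.apply_symm_apply _
      rw [e]
      simp only [Perm.mul_apply, hinv']
    have k3 := G.mul_mem g.2 k2
    rwa [mul_inv_cancel_left] at k3

theorem mem_PPerm {g : Perm (List Bool)} : g ∈ PPerm ↔ g ∈ LPerm ∧ Poly g ∧ Poly g.symm :=
  ⟨fun h => ⟨h.1, poly_iff.2 h.2.1, poly_iff.2 h.2.2⟩,
    fun h => ⟨h.1, poly_iff.1 h.2.1, poly_iff.1 h.2.2⟩⟩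

theorem mem_SPerm' {g : Perm (List Bool)} : g ∈ SPerm ↔ g ∈ LPerm ∧ SP g ∧ SP g.symm :=
  ⟨fun h => ⟨h.1, (mem_SPerm.1 h).2, (mem_SPerm.1 (SPerm.inv_mem h)).2⟩,
    fun h => mem_SPerm.2 ⟨h.1, h.2.1⟩⟩

theorem recog_PPerm {G : Subgroup (Perm (List Bool))} (hG : Big G) (h1 : rotP ∈ G) (h2 : flpP ∈ G)
    (h3 : cnotP ∈ G) (Φ : G ≃* PPerm) : G = PPerm ∧ ∃ θ ∈ PPerm, ∀ (g : G) (x : List Bool),
      3 ≤ x.length → θ ((g : Perm (List Bool)) x) = (Φ g : Perm (List Bool)) (θ x) :=
  recog FC_poly big_PPerm (fun _ => mem_PPerm) hG h1 h2 h3 Φ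

theorem recog_SPerm {G : Subgroup (Perm (List Bool))} (hG : Big G) (h1 : rotP ∈ G) (h2 : flpP ∈ G)
    (h3 : cnotP ∈ G) (Φ : G ≃* SPerm) : G = SPerm ∧ ∃ θ ∈ SPerm, ∀ (g : G) (x : List Bool),
      3 ≤ x.length → θ ((g : Perm (List Bool)) x) = (Φ g : Perm (List Bool)) (θ x) :=
  recog FC_sp big_SPerm (fun _ => mem_SPerm') hG h1 h2 h3 Φ

end Pool.Agent.V7H56.RG
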