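import Pool.Agent.V7H56.RG.Comp

/-!
# The group of polynomial-space permutations embeds in the group of polynomial-time permutations
-/

namespace Pool.Agent.V7H56.RG

open Pool.Agent.NPC Pool.Agent.NPC.PIso Pool.Agent.V7H56.PP Equiv

/-! ### Growth -/

theorem ev_aux (p : Polynomial ℕ) : ∀ c : ℕ, ∃ k₀ : ℕ, ∀ k ≥ k₀, c * p.eval k ≤ 2 ^ k := by
  induction p using Polynomial.induction_on' with
  | add p q hp hq =>
    intro c
    obtain ⟨a, ha⟩ := hp (2 * c)
    obtain ⟨b, hb⟩ := hq (2 * c)
    refine ⟨max a b, fun k hk => ?_⟩
    have h1 := ha k ((le_max_left _ _).trans hk)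
    have h2 := hb k ((le_max_right _ _).trans hk)
    rw [Polynomial.eval_add]
    nlinarith
  | monomial n a =>
    intro c
    have h := isLittleO_pow_const_const_pow_of_one_lt (R := ℝ) n (r := 2) (by norm_num)
    have h1 := (Asymptotics.isLittleO_iff.1 h) (c := 1 / ((c * a : ℕ) + 1)) (by positivity)
    obtain ⟨k₀, hk₀⟩ := Filter.eventually_atTop.1 h1
    refine ⟨k₀, fun k hk => ?_⟩
    have h2 := hk₀ k hk
    rw [Real.norm_of_nonneg (by positivity), Real.norm_of_nonneg (by positivity)] at h2
    have h3 : ((c * a : ℕ) : ℝ) * (k : ℝ) ^ n ≤ (2 : ℝ) ^ k := by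
      have h4 : (((c * a : ℕ) : ℝ) + 1) * (k : ℝ) ^ n ≤ (2 : ℝ) ^ k := by
        have h5 : (0 : ℝ) < ((c * a : ℕ) : ℝ) + 1 := by positivity
        calc (((c * a : ℕ) : ℝ) + 1) * (k : ℝ) ^ n
            ≤ (((c * a : ℕ) : ℝ) + 1) * (1 / (((c * a : ℕ) : ℝ) + 1) * (2 : ℝ) ^ k) :=
              mul_le_mul_of_nonneg_left h2 h5.le
          _ = (2 : ℝ) ^ k := by field_simp
      have h6 : (0 : ℝ) ≤ (k : ℝ) ^ n := by positivity
      linarith
    rw [Polynomial.eval_monomial]
    have h7 : ((c * (a * k ^ n) : ℕ) : ℝ) ≤ ((2 ^ k : ℕ) : ℝ) := by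
      push_cast at h3 ⊢
      linarith
    exact_mod_cast h7

theorem ev_le (p : Polynomial ℕ) : ∃ k₀ : ℕ, ∀ k ≥ k₀, p.eval k ≤ 2 ^ k := by
  obtain ⟨k₀, h⟩ := ev_aux p 1
  exact ⟨k₀, fun k hk => by simpa using h k hk⟩

/-- a slowly growing function -/
def kap (m : ℕ) : ℕ := m.size.size

theorem size_le_id (n : ℕ) : n.size ≤ n := Nat.size_le.2 Nat.lt_two_pow_self

theorem kap_le (m : ℕ) : kap m ≤ m := (size_le_id _).trans (size_le_id _)

theorem exists_size (k : ℕ) : ∃ m : ℕ, m.size = k := by
  cases k with
  | zero => exact ⟨0, rfl⟩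
  | succ k => exact ⟨2 ^ k, Nat.size_pow⟩

theorem exists_kap (k : ℕ) : ∃ m, kap m = k := by
  obtain ⟨s, hs⟩ := exists_size k
  obtain ⟨m, hm⟩ := exists_size s
  exact ⟨m, by rw [kap, hm, hs]⟩

theorem kap_lt {m k : ℕ} (h : kap m < k) : m < 2 ^ 2 ^ k := by
  have h1 : m.size < 2 ^ k := Nat.size_le.1 h.le
  exact Nat.size_le.1 h1.le

theorem le_of_kap {m N : ℕ} (h : N + 2 ≤ 2 ^ (kap m - 1)) (hk : 0 < kap m) : 2 ^ N ≤ m := by
  have h1 : 2 ^ (kap m - 1) ≤ m.size := Nat.lt_size.1 (by unfold kap at hk ⊢; omega)
  have h2 : N < m.size := by omega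
  exact Nat.lt_size.1 h2

/-! ### Runs are short -/

section

variable {σ : Type} [TEnc σ] {G : σ → σ} {stop : σ → Bool} {B : ℕ}

theorem Rn.short {s t : σ} (h : Rn G stop B s t) : ∃ n < 2 ^ (B + 1), G^[n] s = t ∧
    (∀ i < n, stop (G^[i] s) = false) ∧ ∀ i ≤ n, sz (G^[i] s) ≤ B := by
  obtain ⟨n, h1, h2, h3, h4⟩ := h.iter
  refine ⟨n, ?_, h1, h3, h4⟩
  have hinj : ∀ i j, i < j → j ≤ n → G^[i] s ≠ G^[j] s := by
    intro i j hij hj he
    have e1 : G^[n] s = G^[n - (j - i)] s := by
      have a1 : G^[n] s = G^[n - j] (G^[j] s) := by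
        rw [← Function.iterate_add_apply]; congr 1; omega
      have a2 : G^[n - (j - i)] s = G^[n - j] (G^[i] s) := by
        rw [← Function.iterate_add_apply]; congr 1; omega
      rw [a1, a2, he]
    rw [e1, h3 _ (by omega)] at h2
    exact Bool.false_ne_true h2
  by_contra hcon
  push Not at hcon
  have h5 : ∀ i ∈ Finset.range (n + 1), valB (bits (G^[i] s) ++ [true]) ∈
      Finset.range (2 ^ (B + 1)) := by
    intro i hi
    rw [Finset.mem_range] at hi ⊢
    refine (valB_lt _).trans_le (Nat.pow_le_pow_right (by norm_num) ?_)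
    rw [List.length_append, bits_length, List.length_singleton]
    have := h4 i (by omega)
    omega
  obtain ⟨i, hi, j, hj, hne, he⟩ := Finset.exists_ne_map_eq_of_card_lt_of_maps_to
    (by rw [Finset.card_range, Finset.card_range]; omega) h5
  rw [Finset.mem_range] at hi hj
  have h6 := congrArg Nat.bits he
  rw [bits_valB_append_true, bits_valB_append_true] at h6
  have h7 := bits_injective (List.append_cancel_right h6)
  rcases lt_or_gt_of_ne hne with h8 | h8
  · exact hinj i j h8 (by omega) h7
  · exact hinj j i h8 (by omega) h7.symm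

/-- the step function which stays at the end -/
def stay (G : σ → σ) (stop : σ → Bool) (s : σ) : σ := bif stop s then s else G s

omit [TEnc σ] in
theorem stay_iter {s : σ} {n : ℕ} (h : ∀ i < n, stop (G^[i] s) = false) :
    ∀ i ≤ n, (stay G stop)^[i] s = G^[i] s := by
  intro i
  induction i with
  | zero => intro _; rfl
  | succ i ih =>
    intro hi
    rw [Function.iterate_succ_apply', Function.iterate_succ_apply', ih (by omega)]
    unfold stay
    rw [h i (by omega)]; rfl

omit [TEnc σ] in
theorem stay_end {t : σ} (h : stop t = true) (i : ℕ) : (stay G stop)^[i] t = t := by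
  induction i with
  | zero => rfl
  | succ i ih =>
    rw [Function.iterate_succ_apply', ih]
    unfold stay
    rw [h]; rfl

theorem Rn.stay_sz {s t : σ} (h : Rn G stop B s t) (i : ℕ) : sz ((stay G stop)^[i] s) ≤ B := by
  obtain ⟨n, _, h1, h3, h4⟩ := h.short
  by_cases hi : i ≤ n
  · rw [stay_iter h3 i hi]; exact h4 i hi
  · have e : (stay G stop)^[i] s = t := by
      have a1 : (stay G stop)^[i] s = (stay G stop)^[i - n] ((stay G stop)^[n] s) := by
        rw [← Function.iterate_add_apply]; congr 1; omega
      rw [a1, stay_iter h3 n le_rfl, h1, stay_end h.fin.1]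
    rw [e]; exact h.fin.2

theorem Rn.stay_eq {s t : σ} (h : Rn G stop B s t) {m : ℕ} (hm : 2 ^ (B + 1) ≤ m) :
    (stay G stop)^[m] s = t := by
  obtain ⟨n, hn, h1, h3, h4⟩ := h.short
  have a1 : (stay G stop)^[m] s = (stay G stop)^[m - n] ((stay G stop)^[n] s) := by
    rw [← Function.iterate_add_apply]; congr 1; omega
  rw [a1, stay_iter h3 n le_rfl, h1, stay_end h.fin.1]

end

/-! ### The embedding -/

/-- The permutation acts on the first `kap n` bits of the strings of length `n`. -/
def emb (g : List Bool → List Bool) (w : List Bool) : List Bool :=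
  g (w.take (kap w.length)) ++ w.drop (kap w.length)

section

variable {g h : List Bool → List Bool} (hg : ∀ w, (g w).length = w.length)
  (hh : ∀ w, (h w).length = w.length)

include hg

theorem emb_len (w : List Bool) : (emb g w).length = w.length := by
  unfold emb
  have := kap_le w.length
  rw [List.length_append, hg, List.length_take, List.length_drop]
  omega

theorem emb_take (w : List Bool) : (emb g w).take (kap w.length) = g (w.take (kap w.length)) := by
  unfold emb
  have h1 : (g (w.take (kap w.length))).length = kap w.length := by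
    rw [hg, List.length_take]
    have := kap_le w.length
    omega
  exact List.take_left' h1

theorem emb_drop (w : List Bool) : (emb g w).drop (kap w.length) = w.drop (kap w.length) := by
  unfold emb
  have h1 : (g (w.take (kap w.length))).length = kap w.length := by
    rw [hg, List.length_take]
    have := kap_le w.length
    omega
  exact List.drop_left' h1

theorem emb_emb (w : List Bool) : emb h (emb g w) = emb (fun u => h (g u)) w := by
  have h1 : emb h (emb g w) = h ((emb g w).take (kap (emb g w).length)) ++
    (emb g w).drop (kap (emb g w).length) := rfl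
  rw [h1, emb_len hg, emb_take hg, emb_drop hg]
  rfl

end

theorem emb_id (w : List Bool) : emb (fun u => u) w = w := List.take_append_drop _ _

theorem finMod {f g : List Bool → List Bool} (hf : Poly f) : ∀ l : List (List Bool),
    (∀ w, w ∉ l → g w = f w) → Poly g := by
  intro l
  induction l generalizing f with
  | nil =>
    intro h
    exact hf.congr fun w => (h w List.not_mem_nil).symm
  | cons a l ih =>
    intro h
    have h1 : Poly (fun w : List Bool => bif decide (w = a) then g a else f w) :=
      Poly.cond (Poly.decide_eq Poly.id (NPC.Poly.const a)) (NPC.Poly.const _) hf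
    refine ih h1 fun w hw => ?_
    by_cases hwa : w = a
    · simp [hwa]
    · simp only [hwa, decide_false, cond_false]
      exact h w (by simp [hwa, hw])

theorem poly_kap : UPoly (fun w : List Bool => kap w.length) := by
  have h1 : UPoly (fun w : List Bool => w.length) := UPoly.length Poly.id
  have h2 : Poly (fun w : List Bool => w.length.bits) := h1.toPoly.natBits
  have h3 : Poly (fun w : List Bool => w.length.bits.length) := Poly.length h2
  have h4 : UPoly (fun w : List Bool => w.length.bits.length.bits.length) :=
    UPoly.length h3.natBits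
  have e : (fun w : List Bool => w.length.bits.length.bits.length) = fun w => kap w.length := by
    funext w
    unfold kap
    rw [Nat.size_eq_bits_len, Nat.size_eq_bits_len]
  rw [← e]
  exact h4

theorem poly_tails {k : List Bool → ℕ} (hk : UPoly k) : Poly (fun w : List Bool => w.drop (k w)) := by
  refine (poly_uiter (n := k) (s := fun w : List Bool => w) (G := fun _ l => l.tail) hk Poly.id
    (Poly.tail (Poly.snd Poly.id)) Polynomial.X fun w i hi => ?_).congr fun w => ?_
  · rw [Polynomial.eval_X]
    have e : (fun l : List Bool => l.tail)^[i] w = w.drop i := by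
      clear hi
      induction i with
      | zero => rfl
      | succ i ih => rw [Function.iterate_succ_apply', ih]; simp
    rw [e]
    exact Poly.sz_drop_le w i
  · generalize k w = i
    induction i with
    | zero => rfl
    | succ i ih => rw [Function.iterate_succ_apply', ih]; simp

theorem poly_takes {k : List Bool → ℕ} (hk : UPoly k) (hl : ∀ w, k w ≤ w.length) :
    Poly (fun w : List Bool => w.take (k w)) := by
  refine (NPC.Poly.map (F := fun (w : List Bool) (i : ℕ) => w.getD i false) hk.range
    (Poly.getD (Poly.fst Poly.id) (Poly.snd Poly.id) (NPC.Poly.const false))).congr fun w => ?_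
  have h1 := hl w
  apply List.ext_getElem
  · simp; omega
  · intro i h2 h3
    simp only [List.length_map, List.length_range] at h2
    have h4 : i < w.length := by omega
    simp [List.getD_eq_getElem?_getD, h4]

/-- The image of a polynomial-space permutation is computable in polynomial time. -/
theorem poly_emb {g : List Bool → List Bool} (hg : SP g) : Poly (emb g) := by
  obtain ⟨σ, _, G, stop, init, out, h1, h2, h3, h4, q, hq⟩ := hg
  have hk := poly_kap
  have htake : Poly (fun w : List Bool => w.take (kap w.length)) :=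
    poly_takes hk fun w => kap_le _
  have hstay : Poly (stay G stop) := Poly.cond h2 Poly.id h1
  have hbd : ∀ (u : List Bool) (i : ℕ), sz ((stay G stop)^[i] (init u)) ≤ q.eval (sz u) := by
    intro u i
    obtain ⟨t, r1, _⟩ := hq u
    exact r1.stay_sz i
  have hF : Poly (fun w : List Bool => out ((stay G stop)^[w.length]
      (init (w.take (kap w.length)))) ++ w.drop (kap w.length)) := by
    refine Poly.append (h4.comp ?_) (poly_tails hk)
    refine poly_uiter (n := fun w : List Bool => w.length)
      (s := fun w : List Bool => init (w.take (kap w.length))) (G := fun _ => stay G stop)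
      (UPoly.length Poly.id) (h3.comp htake) (hstay.comp (Poly.snd Poly.id))
      q fun w i _ => ?_
    exact (hbd _ i).trans (eval_mono q (Poly.sz_take_le w _))
  obtain ⟨k₀, hk₀⟩ := ev_le (2 * (q.comp (4 * Polynomial.X + 1)) + 6)
  have hfin := List.finite_length_lt Bool (2 ^ 2 ^ (k₀ + 1))
  refine finMod hF hfin.toFinset.toList fun w hw => ?_
  have hw' : 2 ^ 2 ^ (k₀ + 1) ≤ w.length := by
    by_contra hcon
    apply hw
    rw [Finset.mem_toList, Set.Finite.mem_toFinset]
    exact not_le.1 hcon
  have h5 : k₀ + 1 ≤ kap w.length := by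
    by_contra hcon
    have := kap_lt (not_le.1 hcon)
    omega
  have h6 := hk₀ (kap w.length) (by omega)
  simp only [Polynomial.eval_add, Polynomial.eval_mul, Polynomial.eval_comp, Polynomial.eval_X,
    Polynomial.eval_one, Polynomial.eval_ofNat] at h6
  obtain ⟨t, r1, e1⟩ := hq (w.take (kap w.length))
  have h7 : sz (w.take (kap w.length)) ≤ 4 * kap w.length + 1 := by
    have := sz_listBool_le (w.take (kap w.length))
    rw [List.length_take] at this
    have := kap_le w.length
    omega
  have h8 := eval_mono q h7
  have h9 : 2 ^ (q.eval (sz (w.take (kap w.length))) + 1) ≤ w.length := by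
    refine le_of_kap ?_ (by omega)
    obtain ⟨j, hj⟩ : ∃ j, kap w.length = j + 1 := ⟨kap w.length - 1, by omega⟩
    rw [hj] at h6 h8 ⊢
    rw [pow_succ] at h6
    simp only [Nat.add_sub_cancel]
    omega
  rw [r1.stay_eq h9, e1]
  rfl

/-- The embedding. -/
def embHom : SPerm →* PPerm where
  toFun g := ⟨⟨emb g.1, emb g.1.symm, fun w => by
      rw [emb_emb (SPerm_le g.2)]
      have e : (fun u => g.1.symm (g.1 u)) = fun u => u := funext g.1.symm_apply_apply
      rw [e, emb_id],
    fun w => by
      have e1 := emb_emb (g := g.1.symm) (h := g.1) (SPerm_le (SPerm.inv_mem g.2)) w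
      have e : (fun u => g.1 (g.1.symm u)) = fun u => u := funext g.1.apply_symm_apply
      rw [e1, e, emb_id]⟩,
    emb_len (SPerm_le g.2), poly_iff.1 (poly_emb (mem_SPerm'.1 g.2).2.1),
    poly_iff.1 (poly_emb (mem_SPerm'.1 g.2).2.2)⟩
  map_one' := by
    apply Subtype.ext
    exact Equiv.ext emb_id
  map_mul' a b := by
    apply Subtype.ext
    apply Equiv.ext
    intro w
    exact (emb_emb (h := a.1) (SPerm_le b.2) w).symm

theorem embHom_injective : Function.Injective embHom := by
  intro a b h
  apply Subtype.ext
  apply Equiv.ext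
  intro u
  obtain ⟨m, hm⟩ := exists_kap u.length
  have hle := kap_le m
  have h1 : (u ++ List.replicate (m - u.length) false).length = m := by
    rw [List.length_append, List.length_replicate]; omega
  have h2 : emb a.1 (u ++ List.replicate (m - u.length) false) =
      emb b.1 (u ++ List.replicate (m - u.length) false) :=
    congrArg (fun f : PPerm => (f : Perm (List Bool)) (u ++ List.replicate (m - u.length) false)) h
  have h3 := congrArg (fun l : List Bool => l.take (kap m)) h2
  beta_reduce at h3
  have h4 := emb_take (SPerm_le a.2) (u ++ List.replicate (m - u.length) false)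
  have h5 := emb_take (SPerm_le b.2) (u ++ List.replicate (m - u.length) false)
  rw [h1] at h4 h5
  rw [h4, h5, hm, List.take_left' rfl] at h3
  exact h3

end Pool.Agent.V7H56.RG
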