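import Pool.Agent.V7H56.RG.Char
import Pool.Agent.V7H56.PP.Cyc

/-!
# Isomorphisms between groups of length-preserving permutations are induced by permutations
-/

namespace Pool.Agent.V7H56.RG

open Pool.Agent.V7H56.PP Equiv

variable {G H : Subgroup (Perm (List Bool))} (hG : Big G) (hH : Big H) (Φ : G ≃* H)

/-- the transposition as an element of the group -/
noncomputable def sw (hG : Big G) (x y : List Bool) : G :=
  if h : x.length = y.length then ⟨swap x y, hG.sw x y h⟩ else 1

theorem coe_sw {x y : List Bool} (h : x.length = y.length) : (sw hG x y : Perm (List Bool)) = swap x y := by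
  unfold sw
  rw [dif_pos h]

/-- the group element acts trivially on all strings of length at least three -/
def Triv (h : H) : Prop := ∀ w : List Bool, 3 ≤ w.length → (h : Perm (List Bool)) w = w

theorem Triv.mul {a b : H} (ha : Triv a) (hb : Triv b) : Triv (a * b) := by
  intro w hw
  rw [Subgroup.coe_mul, Perm.mul_apply, hb w hw, ha w hw]

include hH in
theorem Triv.conj {a : H} (ha : Triv a) (k : H) : Triv (k * a * k⁻¹) := by
  intro w hw
  rw [Subgroup.coe_mul, Subgroup.coe_mul, Perm.mul_apply, Perm.mul_apply, ha]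
  · rw [Subgroup.coe_inv]; exact (k : Perm (List Bool)).apply_symm_apply w
  · rw [hH.len (k⁻¹).2]; exact hw

include hG hH

/-- the commutator property -/
theorem no_three {a₁ a₂ a₃ : List Bool} (hl : 3 ≤ a₁.length) (h2 : a₂.length = a₁.length)
    (h3 : a₃.length = a₁.length) (h12 : a₁ ≠ a₂) (h13 : a₁ ≠ a₃) (h23 : a₂ ≠ a₃) :
    ¬ Triv (Φ (sw hG a₁ a₂ * sw hG a₂ a₃)) := by
  intro hT
  obtain ⟨a₄, h4, h4'⟩ := exists_new8 hl [a₁, a₂, a₃] (by simp)
  obtain ⟨a₅, h5, h5'⟩ := exists_new8 hl [a₁, a₂, a₃, a₄] (by simp)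
  simp only [List.mem_cons, List.not_mem_nil, or_false, not_or] at h4' h5'
  obtain ⟨q1, q2, q3⟩ := h4'
  obtain ⟨r1, r2, r3, r4⟩ := h5'
  have hnd : ([a₁, a₂, a₃, a₄, a₅] : List (List Bool)).Nodup := by
    simp only [List.nodup_cons, List.mem_cons, List.not_mem_nil, or_false, not_or,
      not_false_eq_true, List.nodup_nil, and_true]
    exact ⟨⟨h12, h13, Ne.symm q1, Ne.symm r1⟩, ⟨h23, Ne.symm q2, Ne.symm r2⟩,
      ⟨Ne.symm q3, Ne.symm r3⟩, Ne.symm r4⟩
  have hm : ([a₁, a₂, a₃, a₄, a₅] : List (List Bool)).formPerm ∈ G :=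
    hG.formPerm (n := a₁.length) _ (by simp [h2, h3, h4, h5])
  have f0 := List.formPerm_apply_getElem _ hnd 0 (by simp)
  have f1 := List.formPerm_apply_getElem _ hnd 1 (by simp)
  have f2 := List.formPerm_apply_getElem _ hnd 2 (by simp)
  have f3 := List.formPerm_apply_getElem _ hnd 3 (by simp)
  have f4 := List.formPerm_apply_getElem _ hnd 4 (by simp)
  have f5 := List.formPerm_pow_length_eq_one_of_nodup _ hnd
  have f6 : ([a₁, a₂, a₃, a₄, a₅] : List (List Bool)).formPerm =
      (swap a₁ a₂ * swap a₂ a₃) * (swap a₃ a₄ * swap a₄ a₅) := by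
    simp only [List.formPerm_cons_cons, List.formPerm_singleton, mul_one, mul_assoc]
  generalize ([a₁, a₂, a₃, a₄, a₅] : List (List Bool)).formPerm = c at *
  simp only [List.getElem_cons_zero, List.getElem_cons_succ, List.length_cons, List.length_nil,
    Nat.reduceAdd, Nat.reduceMod] at f0 f1 f2 f3 f4 f5
  have e1 : (⟨c, hm⟩ : G) = (sw hG a₁ a₂ * sw hG a₂ a₃) *
      ((⟨c, hm⟩ : G) * ⟨c, hm⟩ * (sw hG a₁ a₂ * sw hG a₂ a₃) * ((⟨c, hm⟩ : G) * ⟨c, hm⟩)⁻¹) := by
    apply Subtype.ext
    simp only [Subgroup.coe_mul, Subgroup.coe_inv, coe_sw hG (h2.symm), coe_sw hG (h2.trans h3.symm)]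
    rw [f6]
    congr 1
    have e2 : ∀ x y : List Bool, c * c * swap x y * (c * c)⁻¹ = swap (c (c x)) (c (c y)) :=
      fun x y => (Equiv.swap_apply_apply (c * c) x y).symm
    have e3 : c * c * (swap a₁ a₂ * swap a₂ a₃) * (c * c)⁻¹ =
        (c * c * swap a₁ a₂ * (c * c)⁻¹) * (c * c * swap a₂ a₃ * (c * c)⁻¹) := by group
    rw [← f6, e3, e2, e2, f0, f1, f2, f3]
  have hTc : Triv (Φ ⟨c, hm⟩) := by
    rw [e1, map_mul, map_mul (f := Φ) ((⟨c, hm⟩ : G) * ⟨c, hm⟩ * (sw hG a₁ a₂ * sw hG a₂ a₃)),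
      map_mul (f := Φ) ((⟨c, hm⟩ : G) * ⟨c, hm⟩), map_inv]
    exact Triv.mul hT (Triv.conj hH hT _)
  have hp : (Φ ⟨c, hm⟩) ^ 5 = 1 := by
    rw [← map_pow]
    have : (⟨c, hm⟩ : G) ^ 5 = 1 := Subtype.ext (by rw [Subgroup.coe_pow]; exact f5)
    rw [this, map_one]
  have hone : Φ ⟨c, hm⟩ = 1 := by
    apply Subtype.ext
    apply Equiv.ext
    intro w
    by_cases hw : 3 ≤ w.length
    · exact hTc w hw
    obtain ⟨k, hk⟩ : ∃ k : Perm (List Bool), k = (Φ ⟨c, hm⟩ : H) := ⟨_, rfl⟩
    have hkH : k ∈ H := by rw [hk]; exact (Φ ⟨c, hm⟩).2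
    have hk5 : k ^ 5 = 1 := by
      rw [hk, ← Subgroup.coe_pow, hp]; rfl
    rw [← hk]
    change k w = w
    have hLI : LI k := ⟨fun x => hH.len hkH x, k.injective⟩
    have h1 : Function.minimalPeriod k w ∣ 5 := by
      rw [← Function.isPeriodicPt_iff_minimalPeriod_dvd]
      unfold Function.IsPeriodicPt Function.IsFixedPt
      rw [← Perm.coe_pow, hk5]
      rfl
    have h2 := hLI.period_le w
    have h3 : 2 ^ w.length ≤ 2 ^ 2 := Nat.pow_le_pow_right (by norm_num) (by omega)
    rcases (Nat.dvd_prime (by norm_num)).1 h1 with h4 | h4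
    · exact Function.minimalPeriod_eq_one_iff_isFixedPt.1 h4
    · omega
  have hc1 : (⟨c, hm⟩ : G) = 1 := Φ.map_eq_one_iff.1 hone
  have hc2 : c = 1 := congrArg Subtype.val hc1
  rw [hc2] at f0
  exact h12 f0

theorem no_two {a b c d : List Bool} (hl : 3 ≤ a.length) (hb : b.length = a.length)
    (hc : c.length = a.length) (hd : d.length = a.length) (_ : a ≠ b) (hac : a ≠ c) (had : a ≠ d)
    (hbc : b ≠ c) (hbd : b ≠ d) (hcd : c ≠ d) :
    ¬ Triv (Φ (sw hG a b * sw hG c d)) := by
  intro hT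
  obtain ⟨e, he, he'⟩ := exists_new8 hl [a, b, c, d] (by simp)
  simp only [List.mem_cons, List.not_mem_nil, or_false, not_or] at he'
  obtain ⟨q1, q2, q3, q4⟩ := he'
  have e1 : sw hG d c * sw hG c e = (sw hG a b * sw hG c d) *
      (sw hG d e * (sw hG a b * sw hG c d) * (sw hG d e)⁻¹) := by
    apply Subtype.ext
    simp only [Subgroup.coe_mul, Subgroup.coe_inv, coe_sw hG hb.symm, coe_sw hG (hc.trans hd.symm),
      coe_sw hG (hd.trans he.symm), coe_sw hG (hd.trans hc.symm), coe_sw hG (hc.trans he.symm)]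
    have e2 : swap d e * (swap a b * swap c d) * (swap d e)⁻¹ =
        (swap d e * swap a b * (swap d e)⁻¹) * (swap d e * swap c d * (swap d e)⁻¹) := by group
    rw [e2, ← Equiv.swap_apply_apply, ← Equiv.swap_apply_apply, swap_apply_left,
      swap_apply_of_ne_of_ne had (Ne.symm q1), swap_apply_of_ne_of_ne hbd (Ne.symm q2),
      swap_apply_of_ne_of_ne hcd (Ne.symm q3), swap_comm d c]
    have e3 : swap a b * swap c d = swap c d * swap a b := by
      have := Equiv.swap_apply_apply (swap c d) a b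
      rw [swap_apply_of_ne_of_ne hac had, swap_apply_of_ne_of_ne hbc hbd, swap_inv] at this
      conv_lhs => rw [this]
      rw [mul_assoc, swap_mul_self, mul_one]
    rw [e3, mul_assoc, ← mul_assoc (swap a b), swap_mul_self, one_mul]
  refine no_three hG hH Φ (a₁ := d) (a₂ := c) (a₃ := e) (by rw [hd]; exact hl) (by rw [hc, hd])
    (by rw [he, hd]) hcd.symm (Ne.symm q4) (Ne.symm q3) ?_
  rw [e1, map_mul, map_mul (f := Φ) (sw hG d e * (sw hG a b * sw hG c d)),
    map_mul (f := Φ) (sw hG d e) (sw hG a b * sw hG c d), map_inv]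
  exact Triv.mul hT (Triv.conj hH hT _)

omit hG hH in
/-- the image of a transposition acts on long strings as a transposition -/
def R (hG : Big G) (Φ : G ≃* H) (x y p q : List Bool) : Prop :=
  p ≠ q ∧ 3 ≤ p.length ∧ p.length = q.length ∧
    ∀ v : List Bool, 3 ≤ v.length → (Φ (sw hG x y) : Perm (List Bool)) v = swap p q v

omit hH in
theorem R.symm {x y p q : List Bool} (h : R hG Φ x y p q) : R hG Φ x y q p :=
  ⟨h.1.symm, h.2.2.1 ▸ h.2.1, h.2.2.1.symm, fun v hv => by rw [h.2.2.2 v hv, swap_comm]⟩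

omit hH in
theorem conj_sw {x y : List Bool} (h : x.length = y.length) (g : G) :
    Φ g * Φ (sw hG x y) * (Φ g)⁻¹ = Φ (sw hG ((g : Perm (List Bool)) x) ((g : Perm (List Bool)) y)) := by
  rw [← map_inv, ← map_mul, ← map_mul]
  congr 1
  apply Subtype.ext
  rw [Subgroup.coe_mul, Subgroup.coe_mul, Subgroup.coe_inv, coe_sw hG h, coe_sw hG (by
    rw [hG.len g.2, hG.len g.2, h]), Equiv.swap_apply_apply]

theorem exists_R {x y : List Bool} (hx : 3 ≤ x.length) (h : y.length = x.length) (hxy : x ≠ y) :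
    ∃ p q, R hG Φ x y p q := by
  have hTP : TP H (Φ (sw hG x y)) := by
    constructor
    · rw [← Subgroup.coe_mul, ← map_mul]
      have : sw hG x y * sw hG x y = 1 := Subtype.ext (by
        rw [Subgroup.coe_mul, coe_sw hG h.symm, swap_mul_self]; rfl)
      rw [this, map_one]; rfl
    · intro k hk
      obtain ⟨g, hg⟩ := Φ.surjective ⟨k, hk⟩
      have e0 : k = (Φ g : H) := by rw [hg]
      have e1 : (Φ (sw hG x y) : Perm (List Bool)) * (k * (Φ (sw hG x y) : H) * k⁻¹) =
          (Φ (sw hG x y * (g * sw hG x y * g⁻¹)) : H) := by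
        rw [e0]
        simp only [map_mul, map_inv, Subgroup.coe_mul, Subgroup.coe_inv]
      have e2 : ∀ n : ℕ, ((sw hG x y * (g * sw hG x y * g⁻¹) : G) : Perm (List Bool)) ^ n = 1 →
          ((Φ (sw hG x y * (g * sw hG x y * g⁻¹)) : H) : Perm (List Bool)) ^ n = 1 := by
        intro n hn
        have : (sw hG x y * (g * sw hG x y * g⁻¹)) ^ n = 1 := Subtype.ext (by
          rw [Subgroup.coe_pow, hn]; rfl)
        rw [← Subgroup.coe_pow, ← map_pow, this, map_one]; rfl
      rw [e1]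
      have e3 := (tp_swap (G := G) x y).2 g g.2
      simp only [Subgroup.coe_mul, Subgroup.coe_inv, coe_sw hG h.symm] at e2
      exact e3.imp (e2 2) (e2 3)
  have hnt : ¬ Triv (Φ (sw hG x y)) := by
    intro hT
    obtain ⟨z, hz, hz'⟩ := exists_new8 hx [x, y] (by simp)
    simp only [List.mem_cons, List.not_mem_nil, or_false, not_or] at hz'
    obtain ⟨z1, z2⟩ := hz'
    refine no_three hG hH Φ (a₁ := x) (a₂ := y) (a₃ := z) hx h hz hxy (Ne.symm z1) (Ne.symm z2) ?_
    rw [map_mul]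
    refine Triv.mul hT ?_
    have := Triv.conj hH hT (Φ (sw hG x z))
    rw [conj_sw hG Φ h.symm, coe_sw hG hz.symm, swap_apply_left,
      swap_apply_of_ne_of_ne hxy.symm (Ne.symm z2)] at this
    have e : sw hG z y = sw hG y z := Subtype.ext (by
      rw [coe_sw hG (hz.trans h.symm), coe_sw hG (h.trans hz.symm), swap_comm])
    rwa [e] at this
  unfold Triv at hnt
  push Not at hnt
  obtain ⟨w, hw, hne⟩ := hnt
  exact ⟨w, (Φ (sw hG x y) : Perm (List Bool)) w, hne.symm, hw, (hH.len (Φ (sw hG x y)).2 w).symm,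
    fun v hv => hH.char (Φ (sw hG x y)).2 hTP hw hne hv⟩

/-- the images of two transpositions with one common point have exactly one common point -/
theorem meet {x y z p q c d : List Bool} (hx : 3 ≤ x.length) (hy : y.length = x.length)
    (hz : z.length = x.length) (hxy : x ≠ y) (hxz : x ≠ z) (hyz : y ≠ z)
    (h1 : R hG Φ x y p q) (h2 : R hG Φ x z c d) :
    ¬ (p ≠ c ∧ p ≠ d ∧ q ≠ c ∧ q ≠ d) ∧ ¬ (p = c ∧ q = d) := by
  constructor
  · rintro ⟨n1, n2, n3, n4⟩
    refine no_three hG hH Φ (a₁ := z) (a₂ := x) (a₃ := y) (by rw [hz]; exact hx) hz.symm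
      (by rw [hy, hz]) hxz.symm hyz.symm hxy ?_
    have e1 : sw hG z x * sw hG x y = sw hG x y * sw hG x z * (sw hG x y * sw hG x z) := by
      apply Subtype.ext
      simp only [Subgroup.coe_mul, coe_sw hG hz, coe_sw hG hy.symm, coe_sw hG hz.symm]
      have h3 := three_cycle hxy hxz hyz
      have h4 : (swap x y * swap x z) * (swap x y * swap x z) = (swap x y * swap x z)⁻¹ := by
        rw [eq_inv_iff_mul_eq_one, ← h3]
        simp only [pow_succ, pow_zero, one_mul, mul_assoc]
      rw [h4, mul_inv_rev, swap_inv, swap_inv, swap_comm z x]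
    rw [e1]
    intro w hw
    have l1 : ∀ v : List Bool, 3 ≤ v.length → 3 ≤ (swap c d v).length := by
      intro v hv
      rw [← h2.2.2.2 v hv, hH.len (Φ _).2]
      exact hv
    have l2 : ∀ v : List Bool, 3 ≤ v.length → 3 ≤ (swap p q v).length := by
      intro v hv
      rw [← h1.2.2.2 v hv, hH.len (Φ _).2]
      exact hv
    have ec : ∀ v : List Bool, 3 ≤ v.length →
        (Φ (sw hG x y * sw hG x z) : Perm (List Bool)) v = swap p q (swap c d v) := by
      intro v hv
      rw [map_mul, Subgroup.coe_mul, Perm.mul_apply, h2.2.2.2 v hv, h1.2.2.2 _ (l1 v hv)]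
    rw [map_mul, Subgroup.coe_mul, Perm.mul_apply, ec w hw, ec _ (l2 _ (l1 w hw))]
    have hcomm : ∀ v, swap c d (swap p q v) = swap p q (swap c d v) := by
      intro v
      have := Equiv.swap_apply_apply (swap c d) p q
      rw [swap_apply_of_ne_of_ne n1 n2, swap_apply_of_ne_of_ne n3 n4, swap_inv] at this
      have e := congrArg (fun t : Perm (List Bool) => t (swap c d v)) this
      simp only [Perm.mul_apply, swap_apply_self] at e
      exact e.symm
    rw [hcomm, swap_apply_self, swap_apply_self]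
  · rintro ⟨rfl, rfl⟩
    refine no_three hG hH Φ (a₁ := y) (a₂ := x) (a₃ := z) (by rw [hy]; exact hx) hy.symm
      (by rw [hy, hz]) hxy.symm hyz hxz ?_
    have e1 : sw hG y x = sw hG x y := Subtype.ext (by
      rw [coe_sw hG hy, coe_sw hG hy.symm, swap_comm])
    rw [e1]
    intro w hw
    have l1 : 3 ≤ (swap p q w).length := by
      rw [← h2.2.2.2 w hw, hH.len (Φ _).2]
      exact hw
    rw [map_mul, Subgroup.coe_mul, Perm.mul_apply, h2.2.2.2 w hw, h1.2.2.2 _ l1, swap_apply_self]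

theorem meet' {x y z : List Bool} (hx : 3 ≤ x.length) (hy : y.length = x.length)
    (hz : z.length = x.length) (hxy : x ≠ y) (hxz : x ≠ z) (hyz : y ≠ z) :
    ∃ p a b, a ≠ b ∧ R hG Φ x y p a ∧ R hG Φ x z p b := by
  obtain ⟨p, q, h1⟩ := exists_R hG hH Φ hx hy hxy
  obtain ⟨c, d, h2⟩ := exists_R hG hH Φ hx hz hxz
  have m1 := meet hG hH Φ hx hy hz hxy hxz hyz h1 h2
  have m2 := meet hG hH Φ hx hy hz hxy hxz hyz h1 (h2.symm hG)
  by_cases e1 : p = c
  · subst e1
    exact ⟨p, q, d, fun e => m1.2 ⟨rfl, e⟩, h1, h2⟩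
  by_cases e2 : p = d
  · subst e2
    exact ⟨p, q, c, fun e => m2.2 ⟨rfl, e⟩, h1, h2.symm hG⟩
  by_cases e3 : q = c
  · subst e3
    exact ⟨q, p, d, e2, h1.symm hG, h2⟩
  by_cases e4 : q = d
  · subst e4
    exact ⟨q, p, c, e1, h1.symm hG, h2.symm hG⟩
  exact absurd ⟨e1, e2, e3, e4⟩ m1.1

theorem third {x y z t p a b c d : List Bool} (hx : 3 ≤ x.length) (hy : y.length = x.length)
    (hz : z.length = x.length) (ht : t.length = x.length) (hxy : x ≠ y) (hxz : x ≠ z)
    (hxt : x ≠ t) (hyz : y ≠ z) (hyt : y ≠ t) (hzt : z ≠ t) (hab : a ≠ b) (h1 : R hG Φ x y p a)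
    (h2 : R hG Φ x z p b) (h3 : R hG Φ x t c d) : p = c ∨ p = d := by
  by_contra hcon
  rw [not_or] at hcon
  obtain ⟨n1, n2⟩ := hcon
  have m1 := (meet hG hH Φ hx hy ht hxy hxt hyt h1 h3).1
  have m2 := (meet hG hH Φ hx hz ht hxz hxt hzt h2 h3).1
  have k1 : a = c ∨ a = d := by
    by_contra h
    rw [not_or] at h
    exact m1 ⟨n1, n2, h.1, h.2⟩
  have k2 : b = c ∨ b = d := by
    by_contra h
    rw [not_or] at h
    exact m2 ⟨n1, n2, h.1, h.2⟩
  have h4 : R hG Φ x t a b := by
    rcases k1 with k1 | k1 <;> rcases k2 with k2 | k2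
    · exact absurd (k1.trans k2.symm) hab
    · rw [k1, k2]; exact h3
    · rw [k1, k2]; exact h3.symm hG
    · exact absurd (k1.trans k2.symm) hab
  refine no_two hG hH Φ (a := x) (b := t) (c := y) (d := z) hx ht hy hz hxt hxy hxz hyt.symm
    hzt.symm hyz ?_
  have e1 : sw hG y z = sw hG x y * sw hG x z * sw hG x y := by
    apply Subtype.ext
    simp only [Subgroup.coe_mul, coe_sw hG (hy.trans hz.symm), coe_sw hG hy.symm, coe_sw hG hz.symm]
    have := Equiv.swap_apply_apply (swap x y) x z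
    rw [swap_apply_left, swap_apply_of_ne_of_ne hxz.symm hyz.symm, swap_inv] at this
    exact this
  intro w hw
  have l1 : ∀ v : List Bool, 3 ≤ v.length → 3 ≤ (swap p a v).length := by
    intro v hv
    rw [← h1.2.2.2 v hv, hH.len (Φ _).2]
    exact hv
  have l2 : ∀ v : List Bool, 3 ≤ v.length → 3 ≤ (swap p b v).length := by
    intro v hv
    rw [← h2.2.2.2 v hv, hH.len (Φ _).2]
    exact hv
  have e2 : (Φ (sw hG y z) : Perm (List Bool)) w = swap a b w := by
    rw [e1, map_mul, map_mul, Subgroup.coe_mul, Subgroup.coe_mul, Perm.mul_apply, Perm.mul_apply,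
      h1.2.2.2 w hw, h2.2.2.2 _ (l1 w hw), h1.2.2.2 _ (l2 _ (l1 w hw))]
    have := Equiv.swap_apply_apply (swap p a) p b
    rw [swap_apply_left, swap_apply_of_ne_of_ne h2.1.symm hab.symm, swap_inv] at this
    exact (congrArg (fun t : Perm (List Bool) => t w) this).symm
  have l3 : 3 ≤ (swap a b w).length := by
    rw [← e2, hH.len (Φ _).2]
    exact hw
  rw [map_mul, Subgroup.coe_mul, Perm.mul_apply, e2, h4.2.2.2 _ l3, swap_apply_self]

/-- the point of a string -/
def Pt (hG : Big G) (Φ : G ≃* H) (x p : List Bool) : Prop :=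
  3 ≤ p.length ∧ ∀ y : List Bool, y.length = x.length → x ≠ y →
    (Φ (sw hG x y) : Perm (List Bool)) p ≠ p

theorem exists_pt {x : List Bool} (hx : 3 ≤ x.length) : ∃ p, Pt hG Φ x p := by
  obtain ⟨y, hy, hy'⟩ := exists_new8 hx [x] (by simp)
  obtain ⟨z, hz, hz'⟩ := exists_new8 hx [x, y] (by simp)
  simp only [List.mem_cons, List.not_mem_nil, or_false, not_or] at hy' hz'
  obtain ⟨z1, z2⟩ := hz'
  obtain ⟨p, a, b, hab, h1, h2⟩ := meet' hG hH Φ hx hy hz (Ne.symm hy') (Ne.symm z1) (Ne.symm z2)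
  refine ⟨p, h1.2.1, fun t ht hxt => ?_⟩
  by_cases e1 : t = y
  · rw [e1, h1.2.2.2 p h1.2.1, swap_apply_left]
    exact h1.1.symm
  by_cases e2 : t = z
  · rw [e2, h2.2.2.2 p h2.2.1, swap_apply_left]
    exact h2.1.symm
  obtain ⟨c, d, h3⟩ := exists_R hG hH Φ hx ht hxt
  rw [h3.2.2.2 p h1.2.1]
  rcases third hG hH Φ hx hy hz ht (Ne.symm hy') (Ne.symm z1) hxt (Ne.symm z2) (Ne.symm e1)
    (Ne.symm e2) hab h1 h2 h3 with e | e
  · rw [e, swap_apply_left]
    exact h3.1.symm
  · rw [e, swap_apply_right]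
    exact h3.1

theorem Pt.uniq {x p p' : List Bool} (hx : 3 ≤ x.length) (h : Pt hG Φ x p) (h' : Pt hG Φ x p') :
    p = p' := by
  obtain ⟨y, hy, hy'⟩ := exists_new8 hx [x] (by simp)
  obtain ⟨z, hz, hz'⟩ := exists_new8 hx [x, y] (by simp)
  simp only [List.mem_cons, List.not_mem_nil, or_false, not_or] at hy' hz'
  obtain ⟨z1, z2⟩ := hz'
  obtain ⟨q, a, b, hab, h1, h2⟩ := meet' hG hH Φ hx hy hz (Ne.symm hy') (Ne.symm z1) (Ne.symm z2)
  have key : ∀ r, Pt hG Φ x r → r = q := by
    intro r hr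
    have e1 := hr.2 y hy (Ne.symm hy')
    have e2 := hr.2 z hz (Ne.symm z1)
    rw [h1.2.2.2 r hr.1] at e1
    rw [h2.2.2.2 r hr.1] at e2
    by_contra hne
    have k1 : r = a := by
      by_contra hra
      exact e1 (swap_apply_of_ne_of_ne hne hra)
    have k2 : r = b := by
      by_contra hrb
      exact e2 (swap_apply_of_ne_of_ne hne hrb)
    exact hab (k1.symm.trans k2)
  rw [key p h, key p' h']

theorem Pt.map {x p : List Bool} (h : Pt hG Φ x p) (g : G) :
    Pt hG Φ ((g : Perm (List Bool)) x) ((Φ g : Perm (List Bool)) p) := by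
  refine ⟨by rw [hH.len (Φ g).2]; exact h.1, fun y hy hxy => ?_⟩
  obtain ⟨z, rfl⟩ := (g : Perm (List Bool)).surjective y
  rw [hG.len g.2, hG.len g.2] at hy
  have e : ((Φ g : Perm (List Bool)))⁻¹ ((Φ g : Perm (List Bool)) p) = p :=
    (Φ g : Perm (List Bool)).symm_apply_apply p
  rw [← conj_sw hG Φ hy.symm g, Subgroup.coe_mul, Subgroup.coe_mul, Perm.mul_apply,
    Perm.mul_apply, Subgroup.coe_inv, e]
  intro hcon
  exact h.2 z hy (fun e => hxy (by rw [e])) ((Φ g : Perm (List Bool)).injective hcon)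

open Classical in
omit hG hH in
/-- the map induced on strings -/
noncomputable def th (hG : Big G) (Φ : G ≃* H) (x : List Bool) : List Bool :=
  if h : 3 ≤ x.length ∧ ∃ p, Pt hG Φ x p then h.2.choose else x

theorem th_spec {x : List Bool} (hx : 3 ≤ x.length) : Pt hG Φ x (th hG Φ x) := by
  have h : 3 ≤ x.length ∧ ∃ p, Pt hG Φ x p := ⟨hx, exists_pt hG hH Φ hx⟩
  unfold th
  rw [dif_pos h]
  exact h.2.choose_spec

omit hH in
theorem th_short {x : List Bool} (hx : ¬ 3 ≤ x.length) : th hG Φ x = x := by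
  unfold th
  rw [dif_neg fun h => hx h.1]

theorem th_map {x : List Bool} (hx : 3 ≤ x.length) (g : G) :
    th hG Φ ((g : Perm (List Bool)) x) = (Φ g : Perm (List Bool)) (th hG Φ x) :=
  Pt.uniq hG hH Φ (by rw [hG.len g.2]; exact hx) (th_spec hG hH Φ (by rw [hG.len g.2]; exact hx))
    (Pt.map hG hH Φ (th_spec hG hH Φ hx) g)

theorem pt_symm {x p : List Bool} (hx : 3 ≤ x.length) (h : Pt hG Φ x p) : Pt hH Φ.symm p x := by
  refine ⟨hx, fun q hq hpq hcon => ?_⟩
  obtain ⟨a, b, h1⟩ := exists_R hH hG Φ.symm h.1 hq hpq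
  rw [h1.2.2.2 x hx] at hcon
  have xa : x ≠ a := by
    rintro rfl
    rw [swap_apply_left] at hcon
    exact h1.1 hcon.symm
  have xb : x ≠ b := by
    rintro rfl
    rw [swap_apply_right] at hcon
    exact h1.1 hcon
  obtain ⟨y, hy, hy'⟩ := exists_new8 hx [x, a, b] (by simp)
  obtain ⟨z, hz, hz'⟩ := exists_new8 hx [x, a, b, y] (by simp)
  simp only [List.mem_cons, List.not_mem_nil, or_false, not_or] at hy' hz'
  obtain ⟨y1, y2, y3⟩ := hy'
  obtain ⟨z1, z2, z3, z4⟩ := hz'
  obtain ⟨p', c, d, hcd, k1, k2⟩ := meet' hG hH Φ hx hy hz (Ne.symm y1) (Ne.symm z1) (Ne.symm z4)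
  have hpp : p = p' := by
    have e1 := h.2 y hy (Ne.symm y1)
    have e2 := h.2 z hz (Ne.symm z1)
    rw [k1.2.2.2 p h.1] at e1
    rw [k2.2.2.2 p h.1] at e2
    by_contra hne
    have m1 : p = c := by
      by_contra hpc
      exact e1 (swap_apply_of_ne_of_ne hne hpc)
    have m2 : p = d := by
      by_contra hpd
      exact e2 (swap_apply_of_ne_of_ne hne hpd)
    exact hcd (m1.symm.trans m2)
  subst hpp
  have main : ∀ t e : List Bool, t.length = x.length → t ≠ x → t ≠ a → t ≠ b → R hG Φ x t p e →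
      e ≠ q → False := by
    intro t e ht tx ta tb hR hne
    have hcomm : sw hG x t * Φ.symm (sw hH p q) = Φ.symm (sw hH p q) * sw hG x t := by
      apply Subtype.ext
      apply Equiv.ext
      intro v
      rw [Subgroup.coe_mul, Subgroup.coe_mul, Perm.mul_apply, Perm.mul_apply, coe_sw hG ht.symm]
      by_cases hv : 3 ≤ v.length
      · have hv' : 3 ≤ (swap x t v).length := by
          rw [hG.len (hG.sw x t ht.symm)]; exact hv
        rw [h1.2.2.2 v hv, h1.2.2.2 _ hv']
        have := Equiv.swap_apply_apply (swap x t) a b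
        rw [swap_apply_of_ne_of_ne xa.symm (Ne.symm ta), swap_apply_of_ne_of_ne xb.symm (Ne.symm tb),
          swap_inv] at this
        have e := congrArg (fun s : Perm (List Bool) => s (swap x t v)) this
        simp only [Perm.mul_apply, swap_apply_self] at e
        exact e.symm
      · have n1 : v ≠ x := fun e => hv (by rw [e]; exact hx)
        have n2 : v ≠ t := fun e => hv (by rw [e, ht]; exact hx)
        rw [swap_apply_of_ne_of_ne n1 n2]
        have hl : ((Φ.symm (sw hH p q) : Perm (List Bool)) v).length = v.length :=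
          hG.len (Φ.symm (sw hH p q)).2 v
        rw [swap_apply_of_ne_of_ne]
        · intro e; exact hv (by rw [← hl, e]; exact hx)
        · intro e; exact hv (by rw [← hl, e, ht]; exact hx)
    have hcomm' := congrArg Φ hcomm
    rw [map_mul, map_mul, Φ.apply_symm_apply] at hcomm'
    have e := congrArg (fun s : H => (s : Perm (List Bool)) p) hcomm'
    simp only [Subgroup.coe_mul, Perm.mul_apply, coe_sw hH hq.symm, swap_apply_left] at e
    rw [hR.2.2.2 q (by rw [hq]; exact h.1), hR.2.2.2 p h.1, swap_apply_left,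
      swap_apply_of_ne_of_ne hpq.symm (Ne.symm hne), swap_apply_of_ne_of_ne hR.1.symm hne] at e
    exact hne e.symm
  by_cases hcq : c = q
  · exact main z d hz z1 z2 z3 k2 (fun e => hcd (hcq.trans e.symm))
  · exact main y c hy y1 y2 y3 k1 hcq

theorem th_th {x : List Bool} (hx : 3 ≤ x.length) : th hH Φ.symm (th hG Φ x) = x :=
  Pt.uniq hH hG Φ.symm (th_spec hG hH Φ hx).1 (th_spec hH hG Φ.symm (th_spec hG hH Φ hx).1)
    (pt_symm hG hH Φ hx (th_spec hG hH Φ hx))

theorem th_len_eq {x y : List Bool} (hx : 3 ≤ x.length) (h : y.length = x.length) :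
    (th hG Φ y).length = (th hG Φ x).length := by
  have e : th hG Φ y = (Φ (sw hG x y) : Perm (List Bool)) (th hG Φ x) := by
    rw [← th_map hG hH Φ hx, coe_sw hG h.symm, swap_apply_left]
  rw [e, hH.len (Φ _).2]

theorem len_le {x : List Bool} (hx : 3 ≤ x.length) : x.length ≤ (th hG Φ x).length := by
  let f : List.Vector Bool x.length → List.Vector Bool (th hG Φ x).length :=
    fun v => ⟨th hG Φ v.1, th_len_eq hG hH Φ hx v.2⟩
  have hf : Function.Injective f := by
    intro v w h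
    have h1 : th hG Φ v.1 = th hG Φ w.1 := congrArg Subtype.val h
    have h2 := th_th hG hH Φ (x := v.1) (by rw [v.2]; exact hx)
    rw [h1, th_th hG hH Φ (x := w.1) (by rw [w.2]; exact hx)] at h2
    exact Subtype.ext h2.symm
  have h1 := Fintype.card_le_of_injective f hf
  rw [card_vector, card_vector, Fintype.card_bool] at h1
  exact (Nat.pow_le_pow_iff_right (by norm_num)).1 h1

theorem th_len (x : List Bool) : (th hG Φ x).length = x.length := by
  by_cases hx : 3 ≤ x.length
  · refine le_antisymm ?_ (len_le hG hH Φ hx)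
    have h1 := len_le hH hG Φ.symm (th_spec hG hH Φ hx).1
    rwa [th_th hG hH Φ hx] at h1
  · rw [th_short hG Φ hx]

theorem th_th' (x : List Bool) : th hH Φ.symm (th hG Φ x) = x := by
  by_cases hx : 3 ≤ x.length
  · exact th_th hG hH Φ hx
  · rw [th_short hG Φ hx, th_short hH Φ.symm hx]

/-- **Reconstruction.** An isomorphism between two groups of length-preserving permutations which
contain all transpositions is induced by a permutation of the strings, up to the values on strings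
of length less than three. -/
theorem recon : ∃ θ : Perm (List Bool), (∀ x, θ x = th hG Φ x) ∧ (∀ x, θ⁻¹ x = th hH Φ.symm x) ∧
    θ ∈ LPerm ∧ (∀ x : List Bool, x.length < 3 → θ x = x) ∧
    ∀ (g : G) (x : List Bool), 3 ≤ x.length →
      θ ((g : Perm (List Bool)) x) = (Φ g : Perm (List Bool)) (θ x) := by
  refine ⟨⟨th hG Φ, th hH Φ.symm, th_th' hG hH Φ, th_th' hH hG Φ.symm⟩, fun x => rfl, fun x => rfl,
    th_len hG hH Φ, fun x hx => th_short hG Φ (by omega), fun g x hx => th_map hG hH Φ hx g⟩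

end Pool.Agent.V7H56.RG
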