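import Pool.Agent.V7H56.PP.Pos
import Pool.Agent.H550R2.Iso.Machine

/-!
# Functions computable in polynomial space

A function is in the class `SP` if it is computed by iterating a polynomial-time function on
polynomially short states. The class is closed under composition, pairing and exponentially long
iteration.
-/

namespace Pool.Agent.V7H56.RG

open Pool.Agent.NPC Pool.Agent.NPC.PIso Pool.Agent.V7H56.PP

section Rn

variable {σ τ : Type} [TEnc σ] [TEnc τ]

/-- A halting run in space `B`. -/
inductive Rn (G : σ → σ) (stop : σ → Bool) (B : ℕ) : σ → σ → Prop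
  | halt {s : σ} (h : stop s = true) (hs : sz s ≤ B) : Rn G stop B s s
  | step {s t : σ} (h : stop s = false) (hs : sz s ≤ B) (ht : Rn G stop B (G s) t) :
      Rn G stop B s t

variable {G : σ → σ} {stop : σ → Bool} {B : ℕ} {G' : τ → τ} {stop' : τ → Bool} {B' : ℕ}

theorem Rn.fin {s t : σ} (h : Rn G stop B s t) : stop t = true ∧ sz t ≤ B := by
  induction h with
  | halt h hs => exact ⟨h, hs⟩
  | step h hs ht ih => exact ih

/-- Simulation of a run by another system, followed by a further run. -/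
theorem Rn.sim {φ : σ → τ} (hG : ∀ s, stop s = false → G' (φ s) = φ (G s))
    (hs : ∀ s, stop s = false → stop' (φ s) = false) (hB : ∀ s, sz s ≤ B → sz (φ s) ≤ B')
    {s t : σ} {u : τ} (h : Rn G stop B s t) (hu : Rn G' stop' B' (φ t) u) :
    Rn G' stop' B' (φ s) u := by
  induction h with
  | halt h hs => exact hu
  | step h hsz ht ih =>
    refine Rn.step (hs _ h) (hB _ hsz) ?_
    rw [hG _ h]
    exact ih hu

theorem Rn.iter {s t : σ} (h : Rn G stop B s t) : ∃ n, G^[n] s = t ∧ stop (G^[n] s) = true ∧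
    (∀ i < n, stop (G^[i] s) = false) ∧ ∀ i ≤ n, sz (G^[i] s) ≤ B := by
  induction h with
  | halt h hs =>
    refine ⟨0, rfl, h, by omega, fun i hi => ?_⟩
    obtain rfl : i = 0 := by omega
    exact hs
  | @step s t h hs ht ih =>
    obtain ⟨n, h1, h2, h3, h4⟩ := ih
    refine ⟨n + 1, h1, h2, fun i hi => ?_, fun i hi => ?_⟩
    · cases i with
      | zero => exact h
      | succ i => exact h3 i (by omega)
    · cases i with
      | zero => exact hs
      | succ i => exact h4 i (by omega)

theorem Rn.of_iter {s : σ} {n : ℕ} : (stop (G^[n] s) = true) →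
    (∀ i < n, stop (G^[i] s) = false) → (∀ i ≤ n, sz (G^[i] s) ≤ B) → Rn G stop B s (G^[n] s) := by
  induction n generalizing s with
  | zero => intro h1 _ h3; exact Rn.halt h1 (h3 0 le_rfl)
  | succ n ih =>
    intro h1 h2 h3
    exact Rn.step (h2 0 (by omega)) (h3 0 (by omega))
      (ih h1 (fun i hi => h2 (i + 1) (by omega)) (fun i hi => h3 (i + 1) (by omega)))

end Rn

/-- Functions computable in polynomial space, with polynomially short values. -/
def SP {α β : Type} [TEnc α] [TEnc β] (f : α → β) : Prop :=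
  ∃ (σ : Type) (_ : TEnc σ) (G : σ → σ) (stop : σ → Bool) (init : α → σ) (out : σ → β),
    Poly G ∧ Poly stop ∧ Poly init ∧ Poly out ∧ ∃ q : Polynomial ℕ, ∀ a, ∃ t,
      Rn G stop (q.eval (sz a)) (init a) t ∧ out t = f a

variable {α β γ δ : Type} [TEnc α] [TEnc β] [TEnc γ] [TEnc δ]

namespace SP

theorem congr {f g : α → β} (hf : SP f) (h : ∀ a, f a = g a) : SP g := by
  obtain rfl : f = g := funext h
  exact hf

theorem of_poly {f : α → β} (hf : Poly f) : SP f := by
  obtain ⟨q, hq⟩ := hf.sz_le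
  exact ⟨β, inferInstance, fun s => s, fun _ => true, f, fun s => s, Poly.id, NPC.Poly.const true,
    hf, Poly.id, q, fun a => ⟨f a, Rn.halt rfl (hq a), rfl⟩⟩

theorem sz_le {f : α → β} (hf : SP f) : ∃ q : Polynomial ℕ, ∀ a, sz (f a) ≤ q.eval (sz a) := by
  obtain ⟨σ, _, G, stop, init, out, _, _, _, h4, q, hq⟩ := hf
  obtain ⟨p, hp⟩ := h4.sz_le
  refine ⟨p.comp q, fun a => ?_⟩
  obtain ⟨t, h5, h6⟩ := hq a
  rw [← h6, Polynomial.eval_comp]
  exact (hp t).trans (eval_mono p h5.fin.2)

/-- Computations which start from the value of a function. -/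
def _root_.Pool.Agent.V7H56.RG.SPr (r : α → β) (f : α → γ) : Prop :=
  ∃ (σ : Type) (_ : TEnc σ) (G : σ → σ) (stop : σ → Bool) (init : β → σ) (out : σ → γ),
    Poly G ∧ Poly stop ∧ Poly init ∧ Poly out ∧ ∃ q : Polynomial ℕ, ∀ a, ∃ t,
      Rn G stop (q.eval (sz a)) (init (r a)) t ∧ out t = f a

theorem of_rel {r : α → β} {f : α → γ} (hg : SPr r f) (hf : SP r) : SP f := by
  obtain ⟨σ, _, G, stop, init, out, h1, h2, h3, h4, q, hq⟩ := hf
  obtain ⟨τ, _, G', stop', init', out', h1', h2', h3', h4', q', hq'⟩ := hg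
  let S : σ ⊕ τ → σ ⊕ τ := Sum.elim
    (fun s => bif stop s then Sum.inr (init' (out s)) else Sum.inl (G s))
    (fun t => Sum.inr (G' t))
  let E : σ ⊕ τ → Bool := Sum.elim (fun _ => false) stop'
  let O : σ ⊕ τ → γ := Sum.elim (fun s => out' (init' (out s))) out'
  have hS : Poly S := by
    refine (Poly.sumCases (o := fun s : σ ⊕ τ => s)
      (g := fun _ s => bif stop s then Sum.inr (init' (out s)) else Sum.inl (G s))
      (h := fun _ t => Sum.inr (G' t)) Poly.id ?_ ?_).congr fun s => ?_
    · exact Poly.cond (h2.comp (Poly.snd Poly.id))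
        (Poly.inr (h3'.comp (h4.comp (Poly.snd Poly.id)))) (Poly.inl (h1.comp (Poly.snd Poly.id)))
    · exact Poly.inr (h1'.comp (Poly.snd Poly.id))
    · cases s <;> rfl
  have hE : Poly E := by
    refine (Poly.sumCases (o := fun s : σ ⊕ τ => s) (g := fun _ _ => false)
      (h := fun _ t => stop' t) Poly.id (NPC.Poly.const _)
      (h2'.comp (Poly.snd Poly.id))).congr fun s => ?_
    cases s <;> rfl
  have hO : Poly O := by
    refine (Poly.sumCases (o := fun s : σ ⊕ τ => s) (g := fun _ s => out' (init' (out s)))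
      (h := fun _ t => out' t) Poly.id (h4'.comp (h3'.comp (h4.comp (Poly.snd Poly.id))))
      (h4'.comp (Poly.snd Poly.id))).congr fun s => ?_
    cases s <;> rfl
  refine ⟨σ ⊕ τ, inferInstance, S, E, fun a => Sum.inl (init a), O, hS, hE, Poly.inl h3, hO,
    q + q' + 4, fun a => ?_⟩
  obtain ⟨t, r1, e1⟩ := hq a
  obtain ⟨t', r2, e2⟩ := hq' a
  have hev : (q + q' + 4).eval (sz a) = q.eval (sz a) + q'.eval (sz a) + 4 := by
    simp
  refine ⟨Sum.inr t', ?_, e2⟩
  rw [hev]
  refine Rn.sim (G := G) (stop := stop) (B := q.eval (sz a)) (φ := Sum.inl) ?_ ?_ ?_ r1 ?_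
  · intro s hs
    change (bif stop s then _ else _) = _
    rw [hs]; rfl
  · intro s _; rfl
  · intro s hs
    rw [sz_inl]; omega
  · refine Rn.step rfl ?_ ?_
    · have := r1.fin.2
      rw [sz_inl]; omega
    · have e : S (Sum.inl t) = Sum.inr (init' (r a)) := by
        change (bif stop t then _ else _) = _
        rw [r1.fin.1, ← e1]; rfl
      rw [e]
      refine Rn.sim (G := G') (stop := stop') (B := q'.eval (sz a)) (φ := Sum.inr) ?_ ?_ ?_ r2 ?_
      · intro s _; rfl
      · intro s hs; exact hs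
      · intro s hs
        rw [sz_inr]; omega
      · refine Rn.halt r2.fin.1 ?_
        have := r2.fin.2
        rw [sz_inr]; omega

theorem comp {g : β → γ} {f : α → β} (hg : SP g) (hf : SP f) : SP (fun a => g (f a)) := by
  obtain ⟨pf, hpf⟩ := hf.sz_le
  obtain ⟨τ, _, G', stop', init', out', h1', h2', h3', h4', q', hq'⟩ := hg
  refine of_rel (r := f) ⟨τ, inferInstance, G', stop', init', out', h1', h2', h3', h4',
    q'.comp pf, fun a => ?_⟩ hf
  obtain ⟨t, r1, e1⟩ := hq' (f a)
  refine ⟨t, ?_, e1⟩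
  rw [Polynomial.eval_comp]
  exact Rn.sim (G := G') (stop := stop') (φ := fun s => s) (fun s _ => rfl) (fun s h => h)
    (fun s h => h.trans (eval_mono q' (hpf a))) r1
    (Rn.halt r1.fin.1 (r1.fin.2.trans (eval_mono q' (hpf a))))

theorem carry {f : α → β} (hf : SP f) : SP (fun p : γ × α => (p.1, f p.2)) := by
  obtain ⟨σ, _, G, stop, init, out, h1, h2, h3, h4, q, hq⟩ := hf
  refine ⟨γ × σ, inferInstance, fun s => (s.1, G s.2), fun s => stop s.2, fun p => (p.1, init p.2),
    fun s => (s.1, out s.2), Poly.pair (Poly.fst Poly.id) (h1.comp (Poly.snd Poly.id)),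
    h2.comp (Poly.snd Poly.id), Poly.pair (Poly.fst Poly.id) (h3.comp (Poly.snd Poly.id)),
    Poly.pair (Poly.fst Poly.id) (h4.comp (Poly.snd Poly.id)), Polynomial.X + q + 1, ?_⟩
  rintro ⟨c, a⟩
  obtain ⟨t, r1, e1⟩ := hq a
  have hev : (Polynomial.X + q + 1).eval (sz (c, a)) = sz (c, a) + q.eval (sz (c, a)) + 1 := by
    simp
  have hb : q.eval (sz a) ≤ q.eval (sz (c, a)) := eval_mono q (by rw [sz_pair]; omega)
  refine ⟨(c, t), ?_, congrArg (fun b => (c, b)) e1⟩
  rw [hev]
  refine Rn.sim (G := G) (stop := stop) (B := q.eval (sz a)) (φ := fun s => (c, s)) ?_ ?_ ?_ r1 ?_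
  · intro s _; rfl
  · intro s hs; exact hs
  · intro s hs
    simp only [sz_pair] at hb ⊢; omega
  · refine Rn.halt r1.fin.1 ?_
    have := r1.fin.2
    simp only [sz_pair] at hb ⊢; omega

theorem id : SP (fun a : α => a) := of_poly Poly.id

theorem const (b : β) : SP (fun _ : α => b) := of_poly (NPC.Poly.const b)

/-- post-composition with a polynomial-time function -/
theorem app {h : β → γ} {f : α → β} (hh : Poly h) (hf : SP f) : SP (fun a => h (f a)) :=
  (of_poly hh).comp hf

theorem pair {f : α → β} {g : α → γ} (hf : SP f) (hg : SP g) : SP (fun a => (f a, g a)) := by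
  have h1 : SP (fun a : α => (a, a)) := of_poly (Poly.pair Poly.id Poly.id)
  have h2 : SP (fun a : α => (a, f a)) := (carry (γ := α) hf).comp h1
  have h3 : SP (fun a : α => (f a, a)) :=
    app (h := fun p : α × β => (p.2, p.1)) (Poly.pair (Poly.snd Poly.id) (Poly.fst Poly.id)) h2
  exact (carry (γ := β) hg).comp h3

theorem fst {f : α → β × γ} (hf : SP f) : SP (fun a => (f a).1) := app (Poly.fst Poly.id) hf

theorem snd {f : α → β × γ} (hf : SP f) : SP (fun a => (f a).2) := app (Poly.snd Poly.id) hf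

/-- a polynomial-time function of two arguments -/
theorem app2 {h : β → γ → δ} {f : α → β} {g : α → γ} (hh : Poly (fun p : β × γ => h p.1 p.2))
    (hf : SP f) (hg : SP g) : SP (fun a => h (f a) (g a)) :=
  app (h := fun p : β × γ => h p.1 p.2) hh (pair hf hg)

theorem cond {b : α → Bool} {f g : α → β} (hb : SP b) (hf : SP f) (hg : SP g) :
    SP (fun a => bif b a then f a else g a) :=
  app2 (h := fun (b : Bool) (p : β × β) => bif b then p.1 else p.2)
    (Poly.cond (Poly.fst Poly.id) (Poly.fst (Poly.snd Poly.id)) (Poly.snd (Poly.snd Poly.id)))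
    hb (pair hf hg)

theorem decide_eq [DecidableEq β] {f g : α → β} (hf : SP f) (hg : SP g) :
    SP (fun a => decide (f a = g a)) :=
  app2 (h := fun x y : β => decide (x = y)) (Poly.decide_eq (Poly.fst Poly.id) (Poly.snd Poly.id))
    hf hg

theorem decide_lt {f g : α → ℕ} (hf : SP f) (hg : SP g) : SP (fun a => decide (f a < g a)) :=
  app2 (h := fun x y : ℕ => decide (x < y)) (Poly.decide_lt (Poly.fst Poly.id) (Poly.snd Poly.id))
    hf hg

theorem sub {f g : α → ℕ} (hf : SP f) (hg : SP g) : SP (fun a => f a - g a) :=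
  app2 (h := fun x y : ℕ => x - y) (Poly.sub (Poly.fst Poly.id) (Poly.snd Poly.id)) hf hg

theorem succ {f : α → ℕ} (hf : SP f) : SP (fun a => f a + 1) :=
  app (h := fun x : ℕ => x + 1) (Poly.succ Poly.id) hf

/-- The runs of a do-while loop with body `F` and end condition `c`, in space `K`. -/
inductive Lp (F : β → β) (c : β → Bool) (K : ℕ) : β → β → Prop
  | halt {b : β} (hb : sz b ≤ K) (h : c (F b) = true) : Lp F c K b (F b)
  | step {b r : β} (hb : sz b ≤ K) (h : c (F b) = false) (hr : Lp F c K (F b) r) : Lp F c K b r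

theorem loop {F : β → β} {c : β → Bool} {s : α → β} {f : α → β} (hF : SP F) (hc : Poly c)
    (hs : SP s) (p : Polynomial ℕ) (h : ∀ a, Lp F c (p.eval (sz a)) (s a) (f a)) : SP f := by
  refine of_rel (r := s) ?_ hs
  obtain ⟨σ, _, G, stop, init, out, h1, h2, h3, h4, q, hq⟩ := hF
  refine ⟨σ, inferInstance, fun t => bif stop t then init (out t) else G t,
    fun t => stop t && c (out t), init, out,
    Poly.cond h2 (h3.comp h4) h1, Poly.and h2 (hc.comp h4), h3, h4, q.comp p, fun a => ?_⟩
  rw [Polynomial.eval_comp]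
  have key : ∀ (K : ℕ) (b r : β), Lp F c K b r → ∃ t,
      Rn (fun t => bif stop t then init (out t) else G t) (fun t => stop t && c (out t))
        (q.eval K) (init b) t ∧ out t = r := by
    intro K b r hr
    induction hr with
    | @halt b hb h =>
      obtain ⟨t, r1, e1⟩ := hq b
      have hK : q.eval (sz b) ≤ q.eval K := eval_mono q hb
      refine ⟨t, ?_, e1⟩
      refine Rn.sim (G := G) (stop := stop) (B := q.eval (sz b)) (φ := fun s => s) ?_ ?_ ?_ r1 ?_
      · intro s hs
        simp [hs]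
      · intro s hs
        simp [hs]
      · intro s hs; omega
      · refine Rn.halt ?_ (r1.fin.2.trans hK)
        simp only [r1.fin.1, e1, h, Bool.and_self]
    | @step b r hb h hr ih =>
      obtain ⟨t, r1, e1⟩ := hq b
      obtain ⟨t', r2, e2⟩ := ih
      have hK : q.eval (sz b) ≤ q.eval K := eval_mono q hb
      refine ⟨t', ?_, e2⟩
      refine Rn.sim (G := G) (stop := stop) (B := q.eval (sz b)) (φ := fun s => s) ?_ ?_ ?_ r1 ?_
      · intro s hs
        simp [hs]
      · intro s hs
        simp [hs]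
      · intro s hs; omega
      · refine Rn.step ?_ (r1.fin.2.trans hK) ?_
        · simp only [r1.fin.1, e1, h, Bool.and_false]
        · simp only [r1.fin.1, e1, cond_true]
          exact r2
  exact key _ _ _ (h a)

/-- long iterations with a parameter -/
theorem iter {n : α → ℕ} {s : α → β} {G : α → β → β} (hn : SP n) (hs : SP s)
    (hG : SP (fun p : α × β => G p.1 p.2)) (q : Polynomial ℕ)
    (hq : ∀ a, ∀ i ≤ n a, sz ((G a)^[i] (s a)) ≤ q.eval (sz a)) :
    SP (fun a => (G a)^[n a] (s a)) := by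
  obtain ⟨pn, hpn⟩ := hn.sz_le
  -- the loop on triples (k, a, x)
  let F : ℕ × α × β → ℕ × α × β := fun t =>
    bif decide (t.1 = 0) then t else (t.1 - 1, t.2.1, G t.2.1 t.2.2)
  have hF : SP F := by
    refine cond (of_poly (Poly.decide_eq (Poly.fst Poly.id) (NPC.Poly.const 0))) id ?_
    refine pair (of_poly (Poly.sub (Poly.fst Poly.id) (NPC.Poly.const 1))) (pair
      (of_poly (Poly.fst (Poly.snd Poly.id))) ?_)
    exact hG.comp (of_poly (Poly.snd Poly.id))
  let c : ℕ × α × β → Bool := fun t => decide (t.1 = 0)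
  have hc : Poly c := Poly.decide_eq (Poly.fst Poly.id) (NPC.Poly.const 0)
  -- the loop as a function on states
  let R : ℕ × α × β → ℕ × α × β := fun t => (0, t.2.1, (G t.2.1)^[t.1] t.2.2)
  have key : ∀ (K : ℕ) (a : α) (k : ℕ) (x : β), (∀ i ≤ k, ∀ j ≤ k,
      sz (i, a, (G a)^[j] x) ≤ K) → Lp F c K (k, a, x) (R (k, a, x)) := by
    intro K a k
    induction k with
    | zero =>
      intro x hK
      exact Lp.halt (F := F) (c := c) (b := (0, a, x)) (hK 0 le_rfl 0 le_rfl) rfl
    | succ k ih =>
      intro x hK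
      have eF : F (k + 1, a, x) = (k, a, G a x) := rfl
      by_cases hk : k = 0
      · subst hk
        exact Lp.halt (F := F) (c := c) (b := (0 + 1, a, x)) (hK 1 le_rfl 0 (by omega)) rfl
      · refine Lp.step (hK (k + 1) le_rfl 0 (by omega)) ?_ ?_
        · rw [eF]; exact decide_eq_false hk
        · rw [eF]
          exact ih (G a x) fun i hi j hj => hK i (by omega) (j + 1) (by omega)
  have h := loop (s := fun a => (n a, a, s a)) (f := fun a => R (n a, a, s a)) hF hc
    (pair hn (pair id hs)) (2 * pn + Polynomial.X + q + 2) (fun a => ?_)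
  · exact snd (snd h)
  · refine key _ a (n a) (s a) fun i hi j hj => ?_
    have h1 := sz_nat_mono_le hi
    have h2 := hpn a
    have h3 := hq a j hj
    simp only [sz_pair, Polynomial.eval_add, Polynomial.eval_mul, Polynomial.eval_X,
      Polynomial.eval_ofNat]
    omega

/-- long searches -/
theorem lst {N : α → ℕ} {p : α → ℕ → Bool} (hN : SP N) (hp : SP (fun q : α × ℕ => p q.1 q.2)) :
    SP (fun a => lst (p a) (N a)) := by
  obtain ⟨pN, hpN⟩ := hN.sz_le
  refine iter (G := fun a k => bif p a k then k else k + 1) (s := fun _ => 0) hN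
    (const 0) (cond hp (snd id) (succ (snd id)))
    (2 * pN) fun a i hi => ?_
  have h1 : PP.lst (p a) i ≤ N a := (lst_le _ _).trans hi
  have h2 := sz_nat_mono_le h1
  have h3 := hpN a
  unfold PP.lst at h2
  simp only [Polynomial.eval_mul, Polynomial.eval_ofNat]
  omega

theorem two_pow_length {x : α → List Bool} (hx : SP x) : SP (fun a => 2 ^ (x a).length) :=
  app (h := fun x : List Bool => 2 ^ x.length) (poly_two_pow_length Poly.id) hx

/-- Languages decided by functions of the class are in `PSPACE`. -/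
theorem inPSPACE {f : List Bool → Bool} (hf : SP f) : InPSPACE {x | f x = true} := by
  obtain ⟨σ, _, G, stop, init, out, h1, h2, h3, h4, q, hq⟩ := hf
  refine inPSPACE_iter G stop (acc := out) (init := init) h1 h2 h4 h3
    (q.comp (4 * Polynomial.X + 1)) fun x => ?_
  obtain ⟨t, r1, e1⟩ := hq x
  obtain ⟨n, k1, k2, k3, k4⟩ := r1.iter
  refine ⟨n, k2, k3, fun i hi => (k4 i hi).trans ?_, ?_⟩
  · simp only [Polynomial.eval_comp, Polynomial.eval_add, Polynomial.eval_mul, Polynomial.eval_X,
      Polynomial.eval_one, Polynomial.eval_ofNat]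
    exact eval_mono q (sz_listBool_le x)
  · rw [k1, e1]; rfl

open Classical in
/-- The characteristic functions of languages in `PSPACE` belong to the class. -/
theorem of_inPSPACE {L : Set (List Bool)} (h : InPSPACE L) : SP (fun x => decide (x ∈ L)) := by
  obtain ⟨D⟩ := exists_sys h
  refine ⟨ℕ, inferInstance, D.δ, D.H, D.c₀, D.A, D.poly_δ, D.poly_H, D.poly_c₀, D.poly_A,
    4 * D.N + 1, fun x => ?_⟩
  obtain ⟨n, k1, k2, k3, k4⟩ := D.halts x
  refine ⟨_, Rn.of_iter k2 k3 fun i hi => ?_, ?_⟩
  · have e1 := sz_nat_le (D.δ^[i] (D.c₀ x))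
    have e2 := Nat.size_le.2 (k1 i hi)
    have e3 : D.N.eval x.length ≤ D.N.eval (sz x) := eval_mono D.N (length_lt_sz x).le
    simp only [Polynomial.eval_add, Polynomial.eval_mul, Polynomial.eval_one,
      Polynomial.eval_ofNat]
    omega
  · rw [Bool.eq_iff_iff, decide_eq_true_iff]
    exact k4.symm

end SP

end Pool.Agent.V7H56.RG
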